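import Pool.Agent.H289CC.Stmts

/-!
# Assembly for MP_ccba21_an
-/

open Set Filter Topology MeasureTheory

namespace Pool.Agent.H289CC

open Pool.Agent.Q40.LP

theorem bddBelow (hBdd : TaskBdd) (Ω : Set ℂ) (hm : MeasurableSet Ω)
    (hb : Bornology.IsBounded Ω) : BddBelow ({0} ∪ {τ | τ < 0 ∧ ∃ u, IsEig Ω τ u}) := by
  obtain ⟨C, hC⟩ := hBdd Ω hm hb
  refine ⟨min C 0, ?_⟩
  rintro τ (h | ⟨-, u, hu⟩)
  · rw [mem_singleton_iff] at h
    rw [h]
    exact min_le_right _ _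
  · exact (min_le_left _ _).trans (hC τ u hu)

theorem tau_nonpos (hBdd : TaskBdd) (Ω : Set ℂ) (hm : MeasurableSet Ω)
    (hb : Bornology.IsBounded Ω) : tau Ω ≤ 0 :=
  csInf_le (bddBelow hBdd Ω hm hb) (Or.inl rfl)

theorem tau_le (hBdd : TaskBdd) (Ω : Set ℂ) (hm : MeasurableSet Ω)
    (hb : Bornology.IsBounded Ω) {m : ℝ} {v : ℂ → ℝ} (h0 : m < 0) (hv : IsEig Ω m v) :
    tau Ω ≤ m :=
  csInf_le (bddBelow hBdd Ω hm hb) (Or.inr ⟨h0, v, hv⟩)

theorem answer1 (hMain : Main) (hMin : TaskMin) (hBdd : TaskBdd) (hInt : TaskInt)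
    (hBound : TaskBound) (hSymm : TaskSymm) (hBil : TaskBil) (T9 : Task9) (T10 : Task10)
    (T11 : Task11) (T12 : Task12) (T13 : Task13) (T14 : Task14) (Ω : Set ℂ) (hO : IsOpen Ω)
    (hne : Ω.Nonempty) (hb : Bornology.IsBounded Ω) (ρ : ℝ)
    (hρ : volume (Metric.ball (0 : ℂ) ρ) = volume Ω) : tau Ω ≤ tau (Metric.ball 0 ρ) := by
  obtain ⟨R, hR⟩ := hb.subset_ball (0 : ℂ)
  obtain ⟨ρ', hρ0, hρR, hρ'⟩ := T14 R Ω hO hne hR
  have hρpos : 0 < ρ := by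
    by_contra hcon
    rw [Metric.ball_eq_empty.2 (not_lt.1 hcon), measure_empty] at hρ
    exact (hO.measure_pos volume hne).ne hρ
  have heq : ρ = ρ' := by
    have h := hρ.trans hρ'
    rw [Complex.volume_ball, Complex.volume_ball] at h
    have hpi : (NNReal.pi : ENNReal) ≠ 0 := by
      simp [NNReal.pi_ne_zero]
    have h2 := (ENNReal.mul_left_inj hpi ENNReal.coe_ne_top).1 h
    have h3 : ENNReal.ofReal ρ = ENNReal.ofReal ρ' := by
      have := (ENNReal.pow_right_strictMono (n := 2) two_ne_zero).injective h2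
      exact this
    exact (ENNReal.ofReal_eq_ofReal_iff hρpos.le hρ0.le).1 h3
  subst heq
  by_contra hcon
  rw [not_le] at hcon
  have hΩ0 := tau_nonpos hBdd Ω hO.measurableSet hb
  obtain ⟨l, hl1, hl2⟩ := exists_between hcon
  obtain ⟨m, hm, hml⟩ := exists_lt_of_csInf_lt (⟨0, Or.inl rfl⟩ :
    ({0} ∪ {τ | τ < 0 ∧ ∃ u, IsEig (Metric.ball (0 : ℂ) ρ) τ u}).Nonempty) hl1
  have hl0 : l < 0 := lt_of_lt_of_le hl2 hΩ0
  rcases hm with hm | ⟨hm0, v, hv⟩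
  · rw [mem_singleton_iff] at hm
    rw [hm] at hml
    exact absurd hml (not_lt.2 hl0.le)
  obtain ⟨ε, hε, h13⟩ := T13 hInt hBound hSymm hBil R ρ l m v hρpos hρR hl0 hml hv
  obtain ⟨Ω', hO', hR', hle, hvol⟩ := T12 hMain T9 T10 T11 R ρ Ω hρpos hρR hO hR hρ' ε hε
  obtain ⟨u, hu1, hu2, hu3⟩ := h13 Ω' hO' hR' hvol
  have hb' : Bornology.IsBounded Ω' := Metric.isBounded_ball.subset hR'
  obtain ⟨m', hm', v', hv'⟩ := hMin Ω' hO'.measurableSet hb' l u hu1 hu2 hl0 hu3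
  have := tau_le hBdd Ω' hO'.measurableSet hb' (lt_of_le_of_lt hm' hl0) hv'
  linarith

theorem answer2 (hMin : TaskMin) (hBdd : TaskBdd) (hBound : TaskBound) (T1 : Task1) (T2 : Task2)
    (T3 : Task3) (T4 : Task4) (T5 : Task5) (T6 : Task6) (T7 : Task7) (T8 : Task8) (R : ℝ)
    (hR : 4 ≤ R) : ∃ Ω : Set ℂ, IsOpen Ω ∧ IsConnected Ω ∧ Bornology.IsBounded Ω ∧
      HasTD (closure Ω) R ∧ tau (Metric.ball 0 R) < tau Ω := by
  have h2 := T2 hMin hBdd T1 R hR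
  obtain ⟨C, hC, h3⟩ := T3 hBound R (by linarith)
  obtain ⟨r, hr0, hrR, hvol⟩ := T4 R (1 / (4 * C ^ 2)) (by linarith) (by positivity)
  obtain ⟨h5a, h5b, h5c, -⟩ := T5 r R hr0 hrR
  refine ⟨ann r R, h5a, h5b, h5c, T8 T5 T6 T7 r R hr0 hrR, lt_of_le_of_lt h2 ?_⟩
  refine lt_of_lt_of_le (by norm_num : (-1 : ℝ) < -(1 / 2)) ?_
  refine le_csInf ⟨0, Or.inl rfl⟩ ?_
  rintro τ (h | ⟨-, u, hu⟩)
  · rw [mem_singleton_iff] at h
    rw [h]
    norm_num
  · have hsub : ann r R ⊆ Metric.ball 0 R := fun x hx => by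
      rw [mem_ball_zero_iff]
      exact hx.2
    have h6 := h3 (ann r R) h5a.measurableSet hsub τ u hu
    have h7 : √(volume.real (ann r R)) ≤ 1 / (2 * C) := by
      rw [Real.sqrt_le_left (by positivity)]
      refine hvol.le.trans (le_of_eq ?_)
      field_simp
      norm_num
    have h8 : |τ| ≤ 1 / 2 := by
      refine h6.trans ?_
      calc C * √(volume.real (ann r R)) ≤ C * (1 / (2 * C)) := by gcongr
        _ = 1 / 2 := by field_simp
    have := neg_abs_le τ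
    linarith

end Pool.Agent.H289CC
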