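import Pool.Agent.Q40.LP.Stmts

/-!
# Blueprint for MP_ccba21_an

Q1 (yes): `tau Ω ≤ tau Ω*` by polarizations (Pool/Agent/Q40/LP, theorem `Main`).
Q2 (no): thin annuli have transfinite diameter `R` and `tau` close to `0`.
-/

open Set Filter Topology MeasureTheory

namespace Pool.Agent.H289CC

open Pool.Agent.Q40.LP

/-- `n`-th Fekete constant: the supremum of `∏_{i<j} |z i - z j| ^ (2 / (n (n - 1)))`, `z i ∈ E`. -/
noncomputable def fek (E : Set ℂ) (n : ℕ) : ℝ :=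
  sSup {t | ∃ z : Fin n → ℂ, (∀ i, z i ∈ E) ∧
    t = (∏ i, ∏ j ∈ Finset.Ioi i, ‖z i - z j‖) ^ ((2 : ℝ) / (n * (n - 1)))}

/-- `E` has the transfinite diameter `t`. -/
def HasTD (E : Set ℂ) (t : ℝ) : Prop := Tendsto (fek E) atTop (𝓝 t)

/-- the open annulus -/
def ann (r R : ℝ) : Set ℂ := {x | r < ‖x‖ ∧ ‖x‖ < R}

/-! ### Q2 -/

/-- 1. `pot 1_{B_R} ≤ -1` on `B_R`, `R ≥ 4`: `∫_{B_R} log |x - y| dy ≥ - ∫_{|z| < 1} 1/|z| dz +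
log 2 * (area of B_R minus area of the disc of radius 2 around x) ≥ - 2 π + 12 π log 2 ≥ 1`
(`log t ≥ -1/t` for `t < 1`). -/
def Task1 : Prop := ∀ R : ℝ, 4 ≤ R → ∀ x : ℂ, ‖x‖ < R →
  pot ((Metric.ball (0 : ℂ) R).indicator fun _ => (1 : ℝ)) x ≤ -1

/-- 2. from 1 and `TaskMin`, `TaskBdd` of LP -/
def Task2 : Prop := TaskMin → TaskBdd → Task1 → ∀ R : ℝ, 4 ≤ R → tau (Metric.ball 0 R) ≤ -1

/-- 3. from `TaskBound` of LP: `|τ| |u| = |pot u| ≤ C ‖u‖₂` a.e. on `Ω`; square and integrate over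
`Ω`. -/
def Task3 : Prop := TaskBound → ∀ R : ℝ, 0 < R → ∃ C : ℝ, 0 < C ∧ ∀ Ω : Set ℂ, MeasurableSet Ω →
  Ω ⊆ Metric.ball 0 R → ∀ τ u, IsEig Ω τ u → |τ| ≤ C * √(volume.real Ω)

/-- 4. thin annuli -/
def Task4 : Prop := ∀ R ε : ℝ, 0 < R → 0 < ε → ∃ r, 0 < r ∧ r < R ∧ volume.real (ann r R) < ε

/-- 5. annuli are domains, and their closure is the closed annulus -/
def Task5 : Prop := ∀ r R : ℝ, 0 < r → r < R → IsOpen (ann r R) ∧ IsConnected (ann r R) ∧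
  Bornology.IsBounded (ann r R) ∧ closure (ann r R) = {x | r ≤ ‖x‖ ∧ ‖x‖ ≤ R}

/-- 6. Vandermonde determinant (`Matrix.det_vandermonde`) and the Leibniz formula: at most `n!`
terms, each at most `R ^ (0 + 1 + ... + (n - 1))` -/
def Task6 : Prop := ∀ (R : ℝ) (n : ℕ) (z : Fin n → ℂ), 0 < R → (∀ i, ‖z i‖ ≤ R) →
  ∏ i, ∏ j ∈ Finset.Ioi i, ‖z i - z j‖ ≤ n.factorial * R ^ (n * (n - 1) / 2)

/-- 7. the `n`-th roots of unity: `∏_{j ≠ i} |w_i - w_j| = n` (derivative of `X^n - 1`), so the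
product over `i < j` is `n^(n/2) ≥ 1` -/
def Task7 : Prop := ∀ n : ℕ, 0 < n → ∃ w : Fin n → ℂ, (∀ i, ‖w i‖ = 1) ∧
  1 ≤ ∏ i, ∏ j ∈ Finset.Ioi i, ‖w i - w j‖

/-- 8. from 5, 6, 7: `R ≤ fek ≤ R (n!)^(2/(n(n-1)))`, `(n!)^(2/(n(n-1))) ≤ n^(2/(n-1)) → 1` -/
def Task8 : Prop := Task5 → Task6 → Task7 → ∀ r R : ℝ, 0 < r → r < R →
  HasTD (closure (ann r R)) R

/-! ### Q1 -/

/-- 9. polarizations: with `c < 0` (then `0 ∈ half n c`), open subsets of a disc around 0 go to open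
subsets of the same disc, the measure is preserved, and the part outside any disc around 0 loses the
points whose mirror image is a free point of the disc -/
def Task9 : Prop := ∀ (n : ℂ) (c : ℝ), ‖n‖ = 1 → c < 0 → ∀ (R : ℝ) (Ω : Set ℂ), IsOpen Ω →
  Ω ⊆ Metric.ball 0 R → IsOpen (polar n c Ω) ∧ polar n c Ω ⊆ Metric.ball 0 R ∧
  volume (polar n c Ω) = volume Ω

/-- 10. `x ∈ Ω \ B`, mirror image in `B \ Ω` (`B` a disc around 0, `c < 0`): such points leave the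
outside of `B`, no point enters it -/
def Task10 : Prop := ∀ (n : ℂ) (c : ℝ), ‖n‖ = 1 → c < 0 → ∀ (R ρ : ℝ) (Ω : Set ℂ), IsOpen Ω →
  Ω ⊆ Metric.ball 0 R →
  volume.real (polar n c Ω \ Metric.ball 0 ρ) ≤ volume.real (Ω \ Metric.ball 0 ρ) -
    volume.real {x | x ∈ Ω \ Metric.ball 0 ρ ∧ refl n c x ∈ Metric.ball 0 ρ \ Ω}

/-- 11. average over all mirrors: for `A ⊆ {ρ ≤ |x| < R}`, `B ⊆ {|x| < ρ}` measurable,
`∫_{θ ∈ (0, 2π)} ∫_{c ∈ (-R, 0)} |{x ∈ A : refl x ∈ B}| dc dθ ≥ |A| |B| / (4 R)`: for fixed `x` the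
mirror image `y = x - 2 (n.x - c) n` runs through the plane in polar coordinates around `x`
(`dy = 2 |x - y| dc dθ`), and `|y| < |x|` forces `c < 0` up to the sign `(n, c) → (-n, -c)`. Hence
some mirror has at least the mean. -/
def Task11 : Prop := ∀ R : ℝ, 0 < R → ∃ κ : ℝ, 0 < κ ∧ ∀ (ρ : ℝ) (A B : Set ℂ), 0 < ρ →
  ρ ≤ R → MeasurableSet A → MeasurableSet B → A ⊆ Metric.ball 0 R \ Metric.ball 0 ρ →
  B ⊆ Metric.ball 0 ρ → 0 < volume.real A → 0 < volume.real B → ∃ (n : ℂ) (c : ℝ), ‖n‖ = 1 ∧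
    c < 0 ∧ κ * volume.real A * volume.real B ≤ volume.real {x | x ∈ A ∧ refl n c x ∈ B}

/-- 12. from 9, 10, 11 and `Main` of LP: iterate; `δ_{k+1} ≤ δ_k - κ δ_k²` while
`δ_k = |Ω_k \ B| = |B \ Ω_k|` -/
def Task12 : Prop := Main → Task9 → Task10 → Task11 → ∀ (R ρ : ℝ) (Ω : Set ℂ), 0 < ρ → ρ ≤ R →
  IsOpen Ω → Ω ⊆ Metric.ball 0 R → volume Ω = volume (Metric.ball (0 : ℂ) ρ) → ∀ ε : ℝ, 0 < ε →
  ∃ Ω' : Set ℂ, IsOpen Ω' ∧ Ω' ⊆ Metric.ball 0 R ∧ tau Ω ≤ tau Ω' ∧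
    volume.real (Metric.ball 0 ρ \ Ω') < ε

/-- 13. upper semicontinuity: let `v` be an eigenfunction of the disc with eigenvalue `m < l`;
`u = 1_{Ω'} v` has `En u u → En v v = m ∫ v²` and `∫ u² → ∫ v²` as `|B \ Ω'| → 0` (dominated
convergence along a sequence, or Cauchy-Schwarz with `TaskBound`), so `En u u ≤ l ∫ u²` -/
def Task13 : Prop := TaskInt → TaskBound → TaskSymm → TaskBil → ∀ (R ρ l m : ℝ) (v : ℂ → ℝ),
  0 < ρ → ρ ≤ R → l < 0 → m < l → IsEig (Metric.ball 0 ρ) m v → ∃ ε : ℝ, 0 < ε ∧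
  ∀ Ω' : Set ℂ, IsOpen Ω' → Ω' ⊆ Metric.ball 0 R →
    volume.real (Metric.ball 0 ρ \ Ω') < ε → ∃ u, In Ω' u ∧ (¬ u =ᵐ[volume] 0) ∧
      En u u ≤ l * ∫ x, u x ^ 2

/-- 14. bounded open sets have radii: `|Ω| = |B_ρ|` for a unique `ρ > 0`, and `ρ ≤ R` -/
def Task14 : Prop := ∀ (R : ℝ) (Ω : Set ℂ), IsOpen Ω → Ω.Nonempty → Ω ⊆ Metric.ball 0 R →
  ∃ ρ : ℝ, 0 < ρ ∧ ρ ≤ R ∧ volume Ω = volume (Metric.ball (0 : ℂ) ρ)

end Pool.Agent.H289CC
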