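import Pool.Agent.H289CC.Stmts
import Pool.Agent.Q40.LP.TaskInt

/-! Proof of `Task1`. -/

set_option autoImplicit false

open Set Filter Topology MeasureTheory

namespace Pool.Agent.H289CC.Task1

open Pool.Agent.Q40.LP Pool.Agent.H289CC

/-- `1 / t` for `t < 1`, otherwise `0` -/
noncomputable def rad : ℝ → ℝ := (Iio (1 : ℝ)).indicator fun t => 1 / t

theorem eqOn_rad : EqOn (fun y : ℝ => y ^ (Module.finrank ℝ ℂ - 1) • rad y)
    ((Iio (1 : ℝ)).indicator fun _ => (1 : ℝ)) (Ioi 0) := by
  intro y hy
  have hy0 : (0 : ℝ) < y := hy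
  simp only [Complex.finrank_real_complex, rad, smul_eq_mul]
  by_cases h : y < 1
  · rw [indicator_of_mem (show y ∈ Iio (1 : ℝ) from h), indicator_of_mem (show y ∈ Iio (1 : ℝ) from h)]
    norm_num
    exact mul_inv_cancel₀ hy0.ne'
  · rw [indicator_of_notMem (show y ∉ Iio (1 : ℝ) from h),
      indicator_of_notMem (show y ∉ Iio (1 : ℝ) from h), mul_zero]

theorem rad_integrable : Integrable (fun z : ℂ => rad ‖z‖) := by
  rw [integrable_fun_norm_addHaar volume (E := ℂ) (f := rad)]
  refine (integrableOn_congr_fun eqOn_rad measurableSet_Ioi).2 ?_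
  rw [← integrable_indicator_iff measurableSet_Ioi, indicator_indicator, Ioi_inter_Iio,
    integrable_indicator_iff measurableSet_Ioo]
  exact integrableOn_const (by simp)

theorem rad_integral : ∫ z : ℂ, rad ‖z‖ = 2 * Real.pi := by
  rw [integral_fun_norm_addHaar volume rad, setIntegral_congr_fun measurableSet_Ioi eqOn_rad,
    setIntegral_indicator measurableSet_Iio, Ioi_inter_Iio]
  have h1 : volume.real (Metric.ball (0 : ℂ) 1) = Real.pi := by
    rw [Measure.real, Complex.volume_ball]
    simp
  rw [h1]
  simp

theorem vol_ball (a : ℂ) (r : ℝ) (hr : 0 ≤ r) : volume.real (Metric.ball a r) = r ^ 2 * Real.pi := by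
  rw [Measure.real, Complex.volume_ball]
  simp [hr]

theorem main : Pool.Agent.H289CC.Task1 := by
  intro R hR x hx
  set B : Set ℂ := Metric.ball (0 : ℂ) R with hB
  set D : Set ℂ := B \ Metric.ball x 2 with hD
  have hDm : MeasurableSet D := measurableSet_ball.diff measurableSet_ball
  have hDfin : volume D ≠ ⊤ := by
    refine ne_top_of_le_ne_top ?_ (measure_mono sdiff_subset)
    exact measure_ball_lt_top.ne
  have hgood : Good (B.indicator fun _ => (1 : ℝ)) := by
    refine ⟨?_, R, fun y hy => ?_⟩
    · exact memLp_indicator_const 2 measurableSet_ball 1 (Or.inr measure_ball_lt_top.ne)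
    · refine indicator_of_notMem ?_ _
      rw [hB, Metric.mem_ball, dist_zero_right]
      exact not_lt.2 hy.le
  have hfi := Pool.Agent.Q40.LP.TaskInt.main _ hgood x
  have hi1 : Integrable (fun y : ℂ => rad ‖x - y‖) := rad_integrable.comp_sub_left x
  have hi2 : Integrable (D.indicator fun _ : ℂ => Real.log 2) :=
    (integrable_indicator_iff hDm).2 (integrableOn_const hDfin)
  have hle : pot (B.indicator fun _ => (1 : ℝ)) x ≤
      ∫ y, (rad ‖x - y‖ - D.indicator (fun _ : ℂ => Real.log 2) y) := by
    unfold pot
    refine integral_mono hfi (hi1.sub hi2) fun y => ?_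
    show Real.log (1 / ‖x - y‖) * B.indicator (fun _ => (1 : ℝ)) y ≤
      rad ‖x - y‖ - D.indicator (fun _ : ℂ => Real.log 2) y
    have hn := norm_nonneg (x - y)
    have hrad0 : 0 ≤ rad ‖x - y‖ := by
      unfold rad
      by_cases h : ‖x - y‖ < 1
      · rw [indicator_of_mem (show ‖x - y‖ ∈ Iio (1 : ℝ) from h)]
        positivity
      · rw [indicator_of_notMem (show ‖x - y‖ ∉ Iio (1 : ℝ) from h)]
    by_cases hyB : y ∈ B
    · rw [indicator_of_mem hyB, mul_one]
      by_cases h2 : ‖x - y‖ < 2
      · have hyD : y ∉ D := by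
          rw [hD]
          rintro ⟨_, h⟩
          apply h
          rw [Metric.mem_ball, dist_comm, dist_eq_norm]
          exact h2
        rw [indicator_of_notMem hyD, sub_zero]
        by_cases h1 : ‖x - y‖ < 1
        · unfold rad
          rw [indicator_of_mem (show ‖x - y‖ ∈ Iio (1 : ℝ) from h1)]
          exact Real.log_le_self (by positivity)
        · refine le_trans ?_ hrad0
          push Not at h1
          refine Real.log_nonpos (by positivity) ?_
          rw [div_le_one (by linarith)]
          exact h1
      · push Not at h2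
        have hyD : y ∈ D := by
          rw [hD]
          refine ⟨hyB, fun h => ?_⟩
          rw [Metric.mem_ball, dist_comm, dist_eq_norm] at h
          linarith
        rw [indicator_of_mem hyD]
        have h5 : Real.log 2 ≤ Real.log ‖x - y‖ := Real.log_le_log (by norm_num) h2
        rw [one_div, Real.log_inv]
        linarith
    · rw [indicator_of_notMem hyB, mul_zero]
      have hyD : y ∉ D := fun h => hyB h.1
      rw [indicator_of_notMem hyD, sub_zero]
      exact hrad0
  rw [integral_sub hi1 hi2, integral_indicator hDm, setIntegral_const, smul_eq_mul,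
    integral_sub_left_eq_self (fun z : ℂ => rad ‖z‖) volume x, rad_integral] at hle
  have hvol : 12 * Real.pi ≤ volume.real D := by
    have h1 : volume.real B ≤ volume.real D + volume.real (Metric.ball x 2) := by
      refine (measureReal_mono (h₂ := ?_) (show B ⊆ D ∪ Metric.ball x 2 from ?_)).trans
        (measureReal_union_le _ _)
      · intro y hy
        by_cases h : y ∈ Metric.ball x 2
        · exact Or.inr h
        · exact Or.inl ⟨hy, h⟩
      · exact (measure_union_lt_top (lt_top_iff_ne_top.2 hDfin) measure_ball_lt_top).ne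
    rw [hB, vol_ball 0 R (by linarith), vol_ball x 2 (by norm_num)] at h1
    nlinarith [Real.pi_pos, mul_le_mul_of_nonneg_right (show (16 : ℝ) ≤ R ^ 2 by nlinarith) Real.pi_pos.le]
  have hlog : (0.69 : ℝ) < Real.log 2 := by
    have := Real.log_two_gt_d9
    linarith
  have h3 : Real.pi * 8.28 ≤ volume.real D * Real.log 2 := by
    calc Real.pi * 8.28 = (12 * Real.pi) * 0.69 := by ring
      _ ≤ volume.real D * Real.log 2 := by
        refine mul_le_mul hvol hlog.le (by norm_num) measureReal_nonneg
  have h4 := Real.pi_gt_three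
  linarith

end Pool.Agent.H289CC.Task1
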