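import Pool.Agent.H289CC.Stmts
import Pool.Agent.Q40.LP.TaskRefl

set_option autoImplicit false

open Set Filter Topology MeasureTheory

namespace Pool.Agent.H289CC.Task10

open Pool.Agent.Q40.LP

theorem norm_lt {n : ℂ} (hn : ‖n‖ = 1) {c : ℝ} (hc : c < 0) {x : ℂ} (hx : 0 < lin n c x) :
    ‖x‖ < ‖refl n c x‖ := by
  have h := Pool.Agent.Q40.LP.TaskRefl.nn hn
  have h1 : ‖refl n c x‖ ^ 2 = ‖x‖ ^ 2 - 4 * c * lin n c x := by
    rw [Complex.sq_norm, Complex.sq_norm, Complex.normSq_apply, Complex.normSq_apply,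
      Pool.Agent.Q40.LP.TaskRefl.re_refl, Pool.Agent.Q40.LP.TaskRefl.im_refl]
    have hd : n.re * x.re + n.im * x.im = lin n c x + c := by unfold lin; ring
    set l := lin n c x
    have e3 : (x.re - 2 * l * n.re) * (x.re - 2 * l * n.re) +
        (x.im - 2 * l * n.im) * (x.im - 2 * l * n.im) =
        x.re * x.re + x.im * x.im - 4 * l * (n.re * x.re + n.im * x.im) +
          4 * l ^ 2 * (n.re ^ 2 + n.im ^ 2) := by ring
    rw [e3, h, hd]
    ring
  have h2 : ‖x‖ ^ 2 < ‖refl n c x‖ ^ 2 := by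
    rw [h1]
    nlinarith [mul_pos (neg_pos.2 hc) hx]
  exact lt_of_pow_lt_pow_left₀ 2 (norm_nonneg _) h2

theorem main : Pool.Agent.H289CC.Task10 := by
  intro n c hn hc R ρ Ω hΩ hΩR
  obtain ⟨hinv, -, hlin, -, hmp, hcont, -⟩ := Pool.Agent.Q40.LP.TaskRefl.main n c hn
  set σ := refl n c with hσ
  have hlc : Continuous (lin n c) := by
    unfold lin
    fun_prop
  have hΩm : MeasurableSet Ω := hΩ.measurableSet
  have hBm : MeasurableSet (Metric.ball (0 : ℂ) ρ) := measurableSet_ball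
  have hHm : MeasurableSet {x | 0 < lin n c x} := (isOpen_lt continuous_const hlc).measurableSet
  have hfin : volume Ω ≠ ⊤ := (lt_of_le_of_lt (measure_mono hΩR) measure_ball_lt_top).ne
  set B := Metric.ball (0 : ℂ) ρ with hB
  have hσm : Measurable σ := hcont.measurable
  let K : Set ℂ := (Ω \ B) ∩ ({x | 0 < lin n c x} ∪ σ ⁻¹' Ω)
  let P : Set ℂ := (({x | 0 < lin n c x} \ B) ∩ σ ⁻¹' Ω) \ Ω
  let Q : Set ℂ := (Ω \ B) \ ({x | 0 < lin n c x} ∪ σ ⁻¹' Ω)
  let E : Set ℂ := {x | x ∈ Ω \ B ∧ σ x ∈ B \ Ω}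
  have hKm : MeasurableSet K := (hΩm.diff hBm).inter (hHm.union (hσm hΩm))
  have hPm : MeasurableSet P := ((hHm.diff hBm).inter (hσm hΩm)).diff hΩm
  have hQm : MeasurableSet Q := (hΩm.diff hBm).diff (hHm.union (hσm hΩm))
  have hEm : MeasurableSet E := (hΩm.diff hBm).inter (hσm (hBm.diff hΩm))
  have hKf : volume K ≠ ⊤ := measure_ne_top_of_subset (fun x hx => hx.1.1) hfin
  have hQf : volume Q ≠ ⊤ := measure_ne_top_of_subset (fun x hx => hx.1.1) hfin
  have hEf : volume E ≠ ⊤ := measure_ne_top_of_subset (fun x hx => hx.1.1) hfin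
  have himg : ∀ x, x ∈ σ '' Ω ↔ σ x ∈ Ω := by
    intro x
    constructor
    · rintro ⟨y, hy, rfl⟩
      rwa [hinv]
    · intro h
      exact ⟨σ x, h, hinv x⟩
  have hsub : polar n c Ω \ B ⊆ K ∪ P := by
    rintro x ⟨hx, hxB⟩
    rcases hx with ⟨hx1, hx2⟩ | ⟨hx1, hx2⟩
    · by_cases hxΩ : x ∈ Ω
      · exact Or.inl ⟨⟨hxΩ, hxB⟩, Or.inl hx2⟩
      · rcases hx1 with h | h
        · exact absurd h hxΩ
        · exact Or.inr ⟨⟨⟨hx2, hxB⟩, (himg x).1 h⟩, hxΩ⟩
    · exact Or.inl ⟨⟨hx1.1, hxB⟩, Or.inr ((himg x).1 hx1.2)⟩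
  have hPQ : σ ⁻¹' P ∪ E ⊆ Q := by
    rintro x (hx | hx)
    · obtain ⟨⟨⟨h1, h2⟩, h3⟩, h4⟩ := hx
      have h1' : 0 < lin n c (σ x) := h1
      have h3' : σ (σ x) ∈ Ω := h3
      have h5 : ‖σ x‖ < ‖σ (σ x)‖ := norm_lt hn hc h1'
      rw [hinv] at h3' h5
      refine ⟨⟨h3', fun hxB => h2 ?_⟩, ?_⟩
      · rw [hB, mem_ball_zero_iff] at hxB ⊢
        exact h5.trans hxB
      · rintro (h | h)
        · have h6 : 0 < lin n c x := h
          rw [hlin] at h1'
          linarith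
        · exact h4 h
    · obtain ⟨⟨h1, h2⟩, h3, h4⟩ := hx
      refine ⟨⟨h1, h2⟩, ?_⟩
      rintro (h | h)
      · have h5 : ‖x‖ < ‖σ x‖ := norm_lt hn hc h
        apply h2
        rw [hB, mem_ball_zero_iff] at h3 ⊢
        exact h5.trans h3
      · exact h4 h
  have hPf0 : volume (σ ⁻¹' P) ≠ ⊤ :=
    measure_ne_top_of_subset (fun x hx => hPQ (Or.inl hx)) hQf
  have hPeq : volume (σ ⁻¹' P) = volume P := hmp.measure_preimage hPm.nullMeasurableSet
  have hPr : volume.real (σ ⁻¹' P) = volume.real P := by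
    unfold Measure.real
    rw [hPeq]
  have hPf : volume P ≠ ⊤ := by rwa [← hPeq]
  have hdis : Disjoint (σ ⁻¹' P) E := by
    rw [Set.disjoint_left]
    rintro x ⟨⟨⟨-, h2⟩, -⟩, -⟩ ⟨-, h3, -⟩
    exact h2 h3
  have e1 : volume.real (σ ⁻¹' P ∪ E) = volume.real (σ ⁻¹' P) + volume.real E :=
    measureReal_union hdis hEm hPf0 hEf
  have e2 : volume.real (σ ⁻¹' P ∪ E) ≤ volume.real Q := measureReal_mono hPQ hQf
  have e3 : volume.real (Ω \ B) = volume.real K + volume.real Q := by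
    rw [← measureReal_union _ hQm hKf hQf]
    · congr 1
      ext x
      constructor
      · intro hx
        by_cases h : x ∈ {x | 0 < lin n c x} ∪ σ ⁻¹' Ω
        · exact Or.inl ⟨hx, h⟩
        · exact Or.inr ⟨hx, h⟩
      · rintro (h | h)
        · exact h.1
        · exact h.1
    · rw [Set.disjoint_left]
      rintro x ⟨-, h⟩ ⟨-, h'⟩
      exact h' h
  have e4 : volume.real (polar n c Ω \ B) ≤ volume.real K + volume.real P := by
    refine (measureReal_mono hsub ?_).trans (measureReal_union_le _ _)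
    exact (measure_union_lt_top hKf.lt_top hPf.lt_top).ne
  have e5 : volume.real {x | x ∈ Ω \ B ∧ σ x ∈ B \ Ω} = volume.real E := rfl
  rw [e5, e3]
  rw [e1, hPr] at e2
  linarith

end Pool.Agent.H289CC.Task10
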