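import Pool.Agent.H289CC.Stmts

/-!
# Task 11
-/

set_option autoImplicit false

open Set Filter Topology MeasureTheory
open scoped ENNReal

namespace Pool.Agent.H289CC.Task11

open Pool.Agent.H289CC

/-- unit vector -/
noncomputable def nv (t : ℝ) : ℂ := Real.cos t + Real.sin t * Complex.I

lemma nv_re (t : ℝ) : (nv t).re = Real.cos t := by
  simp only [nv, Complex.add_re, Complex.ofReal_re, Complex.mul_re, Complex.I_re, Complex.I_im, Complex.ofReal_im]
  ring

lemma nv_im (t : ℝ) : (nv t).im = Real.sin t := by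
  simp only [nv, Complex.add_im, Complex.ofReal_re, Complex.mul_im, Complex.I_re, Complex.I_im, Complex.ofReal_im]
  ring

lemma norm_sq (z : ℂ) : ‖z‖ ^ 2 = z.re ^ 2 + z.im ^ 2 := by
  rw [← Complex.normSq_eq_norm_sq, Complex.normSq_apply]; ring

lemma norm_nv (t : ℝ) : ‖nv t‖ = 1 := by
  have h : ‖nv t‖ ^ 2 = 1 := by
    rw [norm_sq, nv_re, nv_im]; nlinarith [Real.sin_sq_add_cos_sq t]
  nlinarith [norm_nonneg (nv t)]

/-- `n . x` -/
noncomputable def dt (t : ℝ) (x : ℂ) : ℝ := Real.cos t * x.re + Real.sin t * x.im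

lemma refl_eq (t c : ℝ) (x : ℂ) :
    Q40.LP.refl (nv t) c x = x + ((2 * (c - dt t x) : ℝ) : ℂ) * nv t := by
  unfold Q40.LP.refl Q40.LP.lin dt
  rw [nv_re, nv_im]
  push_cast
  ring

lemma meas_nv : Measurable nv := by
  have : Continuous nv := by unfold nv; fun_prop
  exact this.measurable

lemma meas_dt (t : ℝ) : Measurable (dt t) := by
  have : Continuous (dt t) := by unfold dt; fun_prop
  exact this.measurable

/-- the linear substitution -/
lemma subst_line (F : ℝ → ℝ≥0∞) (a : ℝ) : ∫⁻ s, F s = 2 * ∫⁻ c, F (2 * (c - a)) := by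
  have h1 : ∫⁻ c, F (2 * (c - a)) = ∫⁻ c, F (2 * c) := by
    exact lintegral_sub_right_eq_self (fun c => F (2 * c)) a
  rw [h1]
  have h2 := Real.smul_map_volume_mul_left (a := 2) two_ne_zero
  conv_lhs => rw [← h2]
  rw [lintegral_smul_measure]
  have h3 : MeasurableEmbedding (fun x : ℝ => 2 * x) := measurableEmbedding_mulLeft₀ two_ne_zero
  rw [h3.lintegral_map]
  simp

lemma norm_add (t s : ℝ) (x : ℂ) : ‖x + (s : ℂ) * nv t‖ ^ 2 = ‖x‖ ^ 2 + s * (2 * dt t x + s) := by
  rw [norm_sq, norm_sq]
  simp only [Complex.add_re, Complex.add_im, Complex.mul_re, Complex.mul_im, Complex.ofReal_re,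
    Complex.ofReal_im, nv_re, nv_im, dt]
  linear_combination s ^ 2 * Real.sin_sq_add_cos_sq t

lemma dt_sq (t : ℝ) (x : ℂ) : (dt t x) ^ 2 ≤ ‖x‖ ^ 2 := by
  rw [norm_sq]
  have h : (dt t x) ^ 2 + (Real.cos t * x.im - Real.sin t * x.re) ^ 2 = x.re ^ 2 + x.im ^ 2 := by
    unfold dt
    linear_combination (x.re ^ 2 + x.im ^ 2) * Real.sin_sq_add_cos_sq t
  nlinarith [sq_nonneg (Real.cos t * x.im - Real.sin t * x.re)]

/-- the integrand -/
noncomputable def g (B : Set ℂ) (x : ℂ) (s t : ℝ) : ℝ≥0∞ :=
  B.indicator (fun _ => (1 : ℝ≥0∞)) (x + (s : ℂ) * nv t)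

theorem key (R ρ : ℝ) (A B : Set ℂ) (_hR : 0 < R) (hρ : 0 < ρ) (_hρR : ρ ≤ R)
    (hA : MeasurableSet A) (hB : MeasurableSet B) (hAs : A ⊆ Metric.ball 0 R \ Metric.ball 0 ρ)
    (hBs : B ⊆ Metric.ball 0 ρ) (M : ℝ≥0∞)
    (hbd : ∀ t c : ℝ, c < 0 → volume {x | x ∈ A ∧ Q40.LP.refl (nv t) c x ∈ B} ≤ M) (t : ℝ) :
    ∫⁻ x in A, ∫⁻ s in Ioi (0 : ℝ), g B x s t ≤ 2 * (M * ENNReal.ofReal R) := by
  have hind : Measurable (B.indicator (fun _ => (1 : ℝ≥0∞))) := measurable_const.indicator hB
  have h1 : ∀ x ∈ A, ∫⁻ s in Ioi (0 : ℝ), g B x s t ≤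
      2 * ∫⁻ c in Ioo (-R) 0, B.indicator (fun _ => (1 : ℝ≥0∞)) (Q40.LP.refl (nv t) c x) := by
    intro x hx
    rw [← lintegral_indicator measurableSet_Ioi, subst_line _ (dt t x),
      ← lintegral_indicator measurableSet_Ioo]
    gcongr with c
    by_cases hc : 2 * (c - dt t x) ∈ Ioi (0 : ℝ)
    · rw [indicator_of_mem hc]
      unfold g
      rw [← refl_eq]
      by_cases hy : Q40.LP.refl (nv t) c x ∈ B
      · have hyn : ‖Q40.LP.refl (nv t) c x‖ < ρ := by simpa using hBs hy
        have hxn := hAs hx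
        have hx1 : ‖x‖ < R := by simpa using hxn.1
        have hx2 : ρ ≤ ‖x‖ := by simpa using hxn.2
        have hmem : c ∈ Ioo (-R) 0 := by
          have hs : 0 < 2 * (c - dt t x) := hc
          constructor
          · have h2 := dt_sq t x
            have h3 : -‖x‖ ≤ dt t x := by
              have := abs_le_of_sq_le_sq' h2 (norm_nonneg x)
              exact this.1
            linarith
          · have h4 := norm_add t (2 * (c - dt t x)) x
            rw [← refl_eq] at h4
            have h5 : ‖Q40.LP.refl (nv t) c x‖ ^ 2 < ‖x‖ ^ 2 := by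
              have := norm_nonneg (Q40.LP.refl (nv t) c x)
              nlinarith
            have h6 : 2 * (c - dt t x) * (2 * dt t x + 2 * (c - dt t x)) < 0 := by linarith
            have h7 : 2 * (c - dt t x) * (2 * c) < 0 := by linarith
            nlinarith
        rw [indicator_of_mem hmem]
      · rw [indicator_of_notMem hy]
        exact zero_le
    · rw [indicator_of_notMem hc]
      exact zero_le
  have hrm : Measurable (fun q : ℂ × ℝ => Q40.LP.refl (nv t) q.2 q.1) := by
    have : Continuous (fun q : ℂ × ℝ => Q40.LP.refl (nv t) q.2 q.1) := by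
      unfold Q40.LP.refl Q40.LP.lin; fun_prop
    exact this.measurable
  calc ∫⁻ x in A, ∫⁻ s in Ioi (0 : ℝ), g B x s t
      ≤ ∫⁻ x in A, 2 * ∫⁻ c in Ioo (-R) 0, B.indicator (fun _ => (1 : ℝ≥0∞)) (Q40.LP.refl (nv t) c x) :=
        setLIntegral_mono' hA h1
    _ = 2 * ∫⁻ x in A, ∫⁻ c in Ioo (-R) 0, B.indicator (fun _ => (1 : ℝ≥0∞)) (Q40.LP.refl (nv t) c x) := by
        rw [lintegral_const_mul']
        simp
    _ = 2 * ∫⁻ c in Ioo (-R) 0, ∫⁻ x in A, B.indicator (fun _ => (1 : ℝ≥0∞)) (Q40.LP.refl (nv t) c x) := by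
        rw [lintegral_lintegral_swap]
        exact (hind.comp hrm).aemeasurable
    _ ≤ 2 * ∫⁻ c in Ioo (-R) 0, M := by
        gcongr 2 * ?_
        apply setLIntegral_mono' measurableSet_Ioo
        intro c hc
        refine le_trans (le_of_eq ?_) (hbd t c hc.2)
        have hm : MeasurableSet ((fun x => Q40.LP.refl (nv t) c x) ⁻¹' B) := by
          have : Measurable (fun x => Q40.LP.refl (nv t) c x) :=
            hrm.comp (measurable_id.prodMk measurable_const)
          exact this hB
        have h9 : (fun x => B.indicator (fun _ => (1 : ℝ≥0∞)) (Q40.LP.refl (nv t) c x)) =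
            ((fun x => Q40.LP.refl (nv t) c x) ⁻¹' B).indicator 1 := by
          funext x
          by_cases h : Q40.LP.refl (nv t) c x ∈ B
          · rw [indicator_of_mem h, indicator_of_mem (by exact h)]; rfl
          · rw [indicator_of_notMem h, indicator_of_notMem (by exact h)]
        rw [h9, lintegral_indicator_one hm, Measure.restrict_apply hm]
        congr 1
        ext x
        simp only [mem_inter_iff, mem_preimage, mem_ofPred_eq]
        tauto
    _ = 2 * (M * ENNReal.ofReal R) := by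
        rw [setLIntegral_const, Real.volume_Ioo]
        simp

theorem main : Pool.Agent.H289CC.Task11 := by
  intro R hR
  refine ⟨1 / (16 * Real.pi * R ^ 2), by positivity, ?_⟩
  intro ρ A B hρ hρR hA hB hAs hBs hA0 hB0
  by_contra hcon
  push Not at hcon
  set κ : ℝ := 1 / (16 * Real.pi * R ^ 2) with hκ
  set M : ℝ≥0∞ := ENNReal.ofReal (κ * volume.real A * volume.real B) with hM
  have hAfin : volume A ≠ ∞ := by
    refine measure_ne_top_of_subset (fun x hx => (hAs hx).1) ?_
    exact measure_ball_lt_top.ne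
  have hBfin : volume B ≠ ∞ := by
    refine measure_ne_top_of_subset hBs ?_
    exact measure_ball_lt_top.ne
  have hbd : ∀ t c : ℝ, c < 0 → volume {x | x ∈ A ∧ Q40.LP.refl (nv t) c x ∈ B} ≤ M := by
    intro t c hc
    have h := hcon (nv t) c (norm_nv t) hc
    have hf : volume {x | x ∈ A ∧ Q40.LP.refl (nv t) c x ∈ B} ≠ ∞ :=
      measure_ne_top_of_subset (fun x hx => hx.1) hAfin
    rw [hM, ← ENNReal.ofReal_toReal hf]
    exact ENNReal.ofReal_le_ofReal h.le
  have hkey := key R ρ A B hR hρ hρR hA hB hAs hBs M hbd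
  have hind : Measurable (B.indicator (fun _ => (1 : ℝ≥0∞))) := measurable_const.indicator hB
  have hg : Measurable (fun q : (ℂ × ℝ) × ℝ => g B q.1.1 q.2 q.1.2) := by
    apply hind.comp
    have h1 : Measurable (fun q : (ℂ × ℝ) × ℝ => nv q.1.2) := meas_nv.comp (by fun_prop)
    fun_prop
  have hgx : ∀ x, Measurable (fun p : ℝ × ℝ => g B x p.1 p.2) := by
    intro x
    apply hind.comp
    have h1 : Measurable (fun q : ℝ × ℝ => nv q.2) := meas_nv.comp (by fun_prop)
    fun_prop
  have hx : ∀ x ∈ A, volume B ≤ ENNReal.ofReal (2 * R) *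
      ∫⁻ t in Ioo (-Real.pi) Real.pi, ∫⁻ s in Ioi (0 : ℝ), g B x s t := by
    intro x hx
    have h1 : volume B = ∫⁻ z, B.indicator (fun _ => (1 : ℝ≥0∞)) (x + z) := by
      rw [lintegral_add_left_eq_self (fun z => B.indicator (fun _ => (1 : ℝ≥0∞)) z) x]
      rw [lintegral_indicator hB]; simp
    rw [h1, ← Complex.lintegral_comp_polarCoord_symm]
    calc ∫⁻ p in polarCoord.target, ENNReal.ofReal p.1 •
          B.indicator (fun _ => (1 : ℝ≥0∞)) (x + Complex.polarCoord.symm p)
        ≤ ∫⁻ p in polarCoord.target, ENNReal.ofReal (2 * R) * g B x p.1 p.2 := by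
          apply setLIntegral_mono' polarCoord.open_target.measurableSet
          intro p hp
          have h2 : x + Complex.polarCoord.symm p = x + (p.1 : ℂ) * nv p.2 := by
            rw [Complex.polarCoord_symm_apply]; rfl
          rw [h2, smul_eq_mul]
          unfold g
          by_cases hy : x + (p.1 : ℂ) * nv p.2 ∈ B
          · gcongr
            have h3 : ‖x + (p.1 : ℂ) * nv p.2‖ < ρ := by simpa using hBs hy
            have h4 : ‖x‖ < R := by simpa using (hAs hx).1
            have h5 : ‖(p.1 : ℂ) * nv p.2‖ = |p.1| := by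
              rw [norm_mul, norm_nv, mul_one, Complex.norm_real, Real.norm_eq_abs]
            have h6 : ‖(p.1 : ℂ) * nv p.2‖ ≤ ‖x + (p.1 : ℂ) * nv p.2‖ + ‖x‖ := by
              have := norm_sub_le (x + (p.1 : ℂ) * nv p.2) x
              simpa using this
            have h7 := le_abs_self p.1
            linarith
          · rw [indicator_of_notMem hy]; simp
      _ = ENNReal.ofReal (2 * R) * ∫⁻ p in polarCoord.target, g B x p.1 p.2 := by
          rw [lintegral_const_mul _ (hgx x)]
      _ = ENNReal.ofReal (2 * R) *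
          ∫⁻ t in Ioo (-Real.pi) Real.pi, ∫⁻ s in Ioi (0 : ℝ), g B x s t := by
          congr 1
          rw [polarCoord_target, Measure.volume_eq_prod, ← Measure.prod_restrict]
          rw [lintegral_prod_symm _ (hgx x).aemeasurable]
  have htot : volume A * volume B ≤
      ENNReal.ofReal (2 * R) * (ENNReal.ofReal (2 * Real.pi) * (2 * (M * ENNReal.ofReal R))) := by
    calc volume A * volume B = ∫⁻ x in A, volume B := by
          rw [setLIntegral_const, mul_comm]
      _ ≤ ∫⁻ x in A, ENNReal.ofReal (2 * R) *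
          ∫⁻ t in Ioo (-Real.pi) Real.pi, ∫⁻ s in Ioi (0 : ℝ), g B x s t := setLIntegral_mono' hA hx
      _ = ENNReal.ofReal (2 * R) * ∫⁻ x in A,
          ∫⁻ t in Ioo (-Real.pi) Real.pi, ∫⁻ s in Ioi (0 : ℝ), g B x s t := by
          rw [lintegral_const_mul']; exact ENNReal.ofReal_ne_top
      _ = ENNReal.ofReal (2 * R) * ∫⁻ t in Ioo (-Real.pi) Real.pi,
          ∫⁻ x in A, ∫⁻ s in Ioi (0 : ℝ), g B x s t := by
          rw [lintegral_lintegral_swap]
          exact (hg.lintegral_prod_right').aemeasurable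
      _ ≤ ENNReal.ofReal (2 * R) * ∫⁻ t in Ioo (-Real.pi) Real.pi,
          (2 * (M * ENNReal.ofReal R)) := by
          gcongr with t
          exact hkey t
      _ = _ := by
          rw [setLIntegral_const, Real.volume_Ioo]
          have : Real.pi - -Real.pi = 2 * Real.pi := by ring
          rw [this, mul_comm (2 * (M * ENNReal.ofReal R))]
  have hreal : volume.real A * volume.real B ≤
      (2 * R) * ((2 * Real.pi) * (2 * ((κ * volume.real A * volume.real B) * R))) := by
    have hk0 : 0 ≤ κ * volume.real A * volume.real B := by positivity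
    have e1 : ENNReal.ofReal (volume.real A * volume.real B) = volume A * volume B := by
      rw [ENNReal.ofReal_mul hA0.le]
      congr 1
      · exact ENNReal.ofReal_toReal hAfin
      · exact ENNReal.ofReal_toReal hBfin
    have e4 : ENNReal.ofReal (2 * ((κ * volume.real A * volume.real B) * R)) =
        2 * (M * ENNReal.ofReal R) := by
      rw [ENNReal.ofReal_mul (p := 2) (by norm_num), ENNReal.ofReal_mul hk0, hM]
      simp
    have e3 : ENNReal.ofReal ((2 * Real.pi) * (2 * ((κ * volume.real A * volume.real B) * R))) =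
        ENNReal.ofReal (2 * Real.pi) * (2 * (M * ENNReal.ofReal R)) := by
      rw [ENNReal.ofReal_mul (by positivity), e4]
    have e2 : ENNReal.ofReal ((2 * R) * ((2 * Real.pi) * (2 * ((κ * volume.real A * volume.real B) * R)))) =
        ENNReal.ofReal (2 * R) * (ENNReal.ofReal (2 * Real.pi) * (2 * (M * ENNReal.ofReal R))) := by
      rw [ENNReal.ofReal_mul (by positivity), e3]
    have h1 : ENNReal.ofReal (volume.real A * volume.real B) ≤
        ENNReal.ofReal ((2 * R) * ((2 * Real.pi) * (2 * ((κ * volume.real A * volume.real B) * R)))) := by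
      rw [e1, e2]
      exact htot
    exact (ENNReal.ofReal_le_ofReal_iff (by positivity)).1 h1
  have hpos : 0 < volume.real A * volume.real B := mul_pos hA0 hB0
  have h8 : (2 * R) * ((2 * Real.pi) * (2 * ((κ * volume.real A * volume.real B) * R))) =
      (volume.real A * volume.real B) / 2 := by
    rw [hκ]
    have := Real.pi_pos
    field_simp
    ring
  linarith

end Pool.Agent.H289CC.Task11
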