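import Pool.Agent.H289CC.Stmts

open Set Filter Topology MeasureTheory

namespace Pool.Agent.H289CC.Task11b

open Pool.Agent.Q40.LP Pool.Agent.H289CC

noncomputable def e (θ : ℝ) : ℂ := Complex.exp (θ * Complex.I)

lemma e_re (θ : ℝ) : (e θ).re = Real.cos θ := Complex.exp_ofReal_mul_I_re θ
lemma e_im (θ : ℝ) : (e θ).im = Real.sin θ := Complex.exp_ofReal_mul_I_im θ
lemma e_norm (θ : ℝ) : ‖e θ‖ = 1 := Complex.norm_exp_ofReal_mul_I θ

lemma scal (F : ℝ → ENNReal) (hF : Measurable F) (a : ℝ) :
    ∫⁻ s, F s = ENNReal.ofReal 2 * ∫⁻ c, F (2 * (c - a)) := by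
  have h1 : ∫⁻ s, F s = ENNReal.ofReal 2 * ∫⁻ t, F (2 * t) := by
    conv_lhs => rw [← Real.smul_map_volume_mul_left (a := 2) (by norm_num)]
    rw [lintegral_smul_measure, lintegral_map hF (by fun_prop)]
    simp
  rw [h1]
  congr 1
  exact (lintegral_sub_right_eq_self (fun t => F (2 * t)) a).symm

lemma ptw {R ρ : ℝ} {B : Set ℂ} (hB : B ⊆ Metric.ball 0 ρ)
    (x : ℂ) (hρR : ρ ≤ R) (hx : ‖x‖ < R) (hx' : ρ ≤ ‖x‖) (θ c : ℝ) :
    (Ioi (0 : ℝ)).indicator (fun s => ENNReal.ofReal s * B.indicator 1 (x + s * e θ))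
      (2 * (c - (Real.cos θ * x.re + Real.sin θ * x.im)))
    ≤ (Ioo (-R) 0).indicator (fun c => ENNReal.ofReal (2 * R) * B.indicator 1 (refl (e θ) c x))
      c := by
  set a := Real.cos θ * x.re + Real.sin θ * x.im with ha
  set s := 2 * (c - a) with hs
  by_cases h0 : 0 < s
  · by_cases hy : x + s * e θ ∈ B
    · have hrefl : refl (e θ) c x = x + s * e θ := by
        unfold Pool.Agent.Q40.LP.refl lin
        rw [e_re, e_im, hs, ha]
        push_cast
        ring
      have hyn : ‖x + s * e θ‖ < ρ := by simpa using hB hy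
      have hsc := Real.sin_sq_add_cos_sq θ
      have hsq : Complex.normSq (x + s * e θ) = Complex.normSq x + 2 * s * c := by
        rw [Complex.normSq_apply, Complex.normSq_apply]
        simp only [Complex.add_re, Complex.mul_re, Complex.ofReal_re, Complex.ofReal_im,
          Complex.add_im, Complex.mul_im, e_re, e_im]
        have hc' : c = a + s / 2 := by rw [hs]; ring
        rw [hc', ha]
        linear_combination s ^ 2 * hsc
      rw [Complex.normSq_eq_norm_sq, Complex.normSq_eq_norm_sq] at hsq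
      have hc : c < 0 := by
        by_contra hcn
        rw [not_lt] at hcn
        have : ‖x‖ ^ 2 ≤ ‖x + s * e θ‖ ^ 2 := by rw [hsq]; nlinarith [mul_nonneg h0.le hcn]
        have h2 := abs_le_of_sq_le_sq' this (norm_nonneg _)
        linarith [h2.2]
      have haR : -R < a := by
        have h3 : a = (x * (starRingEnd ℂ) (e θ)).re := by
          simp [Complex.mul_re, e_re, e_im, ha]; ring
        have h4 : |a| ≤ ‖x‖ := by
          rw [h3]
          refine (Complex.abs_re_le_norm _).trans ?_
          rw [norm_mul, RCLike.norm_conj, e_norm, mul_one]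
        linarith [(abs_le.1 h4).1]
      have hcR : -R < c := by
        have : 0 < c - a := by linarith
        linarith
      have hs2 : s ≤ 2 * R := by
        have h5 : ‖(x + s * e θ) - x‖ = s := by
          rw [add_sub_cancel_left, norm_mul, e_norm, mul_one, Complex.norm_real, Real.norm_eq_abs,
            abs_of_pos h0]
        have h6 := norm_sub_le (x + s * e θ) x
        linarith
      rw [indicator_of_mem (show s ∈ Ioi (0 : ℝ) from h0),
        indicator_of_mem (show c ∈ Ioo (-R) 0 from ⟨hcR, hc⟩), hrefl]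
      gcongr
    · rw [indicator_of_mem (show s ∈ Ioi (0 : ℝ) from h0), indicator_of_notMem hy]
      simp
  · rw [indicator_of_notMem (show s ∉ Ioi (0 : ℝ) from h0)]
    exact bot_le

lemma meas_refl {B : Set ℂ} (hB : MeasurableSet B) :
    Measurable (fun q : ℂ × (ℝ × ℝ) => (B.indicator (1 : ℂ → ENNReal) (refl (e q.2.1) q.2.2 q.1))) := by
  have h1 : Continuous (fun q : ℂ × (ℝ × ℝ) => refl (e q.2.1) q.2.2 q.1) := by
    unfold Pool.Agent.Q40.LP.refl lin
    simp only [e_re, e_im]
    unfold e
    fun_prop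
  exact (measurable_one.indicator hB).comp h1.measurable

lemma volB {R ρ : ℝ} {B : Set ℂ} (hBm : MeasurableSet B) (hB : B ⊆ Metric.ball 0 ρ)
    (x : ℂ) (hρR : ρ ≤ R) (hx : ‖x‖ < R) (hx' : ρ ≤ ‖x‖) :
    volume B ≤ ∫⁻ q in (Ioo (-Real.pi) Real.pi) ×ˢ (Ioo (-R) 0),
      ENNReal.ofReal (4 * R) * B.indicator 1 (refl (e q.1) q.2 x) := by
  have hR : 0 < R := lt_of_le_of_lt (norm_nonneg x) hx
  have e1 : volume B = ∫⁻ y, B.indicator 1 y := by
    rw [lintegral_indicator_one hBm]
  have e2 : ∫⁻ y, B.indicator (1 : ℂ → ENNReal) y = ∫⁻ y, B.indicator (1 : ℂ → ENNReal) (x + y) :=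
    (lintegral_add_left_eq_self (fun y => B.indicator (1 : ℂ → ENNReal) y) x).symm
  rw [e1, e2, ← Complex.lintegral_comp_polarCoord_symm]
  have htar : polarCoord.target = Ioi (0 : ℝ) ×ˢ Ioo (-Real.pi) Real.pi := rfl
  have hsym : ∀ p : ℝ × ℝ, Complex.polarCoord.symm p = p.1 * e p.2 := by
    intro p
    rw [Complex.polarCoord_symm_apply, e, Complex.exp_mul_I]
    push_cast
    ring
  rw [htar, Measure.volume_eq_prod, ← Measure.prod_restrict, ← Measure.prod_restrict]
  have hm1 : Measurable (fun p : ℝ × ℝ => ENNReal.ofReal p.1 •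
      B.indicator (1 : ℂ → ENNReal) (x + Complex.polarCoord.symm p)) := by
    simp only [hsym]
    have h1 : Continuous (fun p : ℝ × ℝ => x + p.1 * e p.2) := by unfold e; fun_prop
    have h2 := (measurable_one.indicator hBm (β := ENNReal)).comp h1.measurable
    exact (ENNReal.measurable_ofReal.comp measurable_fst).mul h2
  have hm2 : Measurable (fun q : ℝ × ℝ =>
      ENNReal.ofReal (4 * R) * B.indicator (1 : ℂ → ENNReal) (refl (e q.1) q.2 x)) :=
    ((meas_refl hBm).comp (by fun_prop : Measurable fun q : ℝ × ℝ => (x, q))).const_mul _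
  rw [lintegral_prod_symm _ hm1.aemeasurable, lintegral_prod _ hm2.aemeasurable]
  apply lintegral_mono
  intro θ
  dsimp only
  have hF : Measurable ((Ioi (0 : ℝ)).indicator
      (fun s : ℝ => ENNReal.ofReal s * B.indicator (1 : ℂ → ENNReal) (x + s * e θ))) := by
    apply Measurable.indicator _ measurableSet_Ioi
    have h1 : Continuous (fun s : ℝ => x + s * e θ) := by fun_prop
    have h2 := (measurable_one.indicator hBm (β := ENNReal)).comp h1.measurable
    exact ENNReal.measurable_ofReal.mul h2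
  calc ∫⁻ s in Ioi (0 : ℝ), ENNReal.ofReal s • B.indicator (1 : ℂ → ENNReal)
          (x + Complex.polarCoord.symm (s, θ))
      = ∫⁻ s, (Ioi (0 : ℝ)).indicator
          (fun s : ℝ => ENNReal.ofReal s * B.indicator (1 : ℂ → ENNReal) (x + s * e θ)) s := by
        rw [lintegral_indicator measurableSet_Ioi]
        simp only [hsym, smul_eq_mul]
    _ = ENNReal.ofReal 2 * ∫⁻ c, (Ioi (0 : ℝ)).indicator
          (fun s : ℝ => ENNReal.ofReal s * B.indicator (1 : ℂ → ENNReal) (x + s * e θ))
          (2 * (c - (Real.cos θ * x.re + Real.sin θ * x.im))) := scal _ hF _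
    _ ≤ ENNReal.ofReal 2 * ∫⁻ c, (Ioo (-R) 0).indicator
          (fun c => ENNReal.ofReal (2 * R) * B.indicator 1 (refl (e θ) c x)) c := by
        gcongr with c
        exact ptw hB x hρR hx hx' θ c
    _ = ∫⁻ c in Ioo (-R) 0, ENNReal.ofReal (4 * R) * B.indicator 1 (refl (e θ) c x) := by
        rw [lintegral_indicator measurableSet_Ioo, ← lintegral_const_mul']
        · congr 1
          ext c
          rw [← mul_assoc, ← ENNReal.ofReal_mul (by norm_num)]
          ring_nf
        · exact ENNReal.ofReal_ne_top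

theorem main : Pool.Agent.H289CC.Task11 := by
  intro R hR
  refine ⟨1 / (16 * Real.pi * R ^ 2), by positivity, ?_⟩
  intro ρ A B hρ hρR hA hB hAs hBs hA0 hB0
  by_contra hcon
  push Not at hcon
  have hAfin : volume A ≠ ⊤ :=
    ((measure_mono (hAs.trans diff_subset)).trans_lt measure_ball_lt_top).ne
  have hBfin : volume B ≠ ⊤ := ((measure_mono hBs).trans_lt measure_ball_lt_top).ne
  set κ := 1 / (16 * Real.pi * R ^ 2) with hκ
  have hint : volume A * volume B ≤ ∫⁻ x in A, ∫⁻ q in (Ioo (-Real.pi) Real.pi) ×ˢ (Ioo (-R) 0),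
      ENNReal.ofReal (4 * R) * B.indicator 1 (refl (e q.1) q.2 x) := by
    calc volume A * volume B = ∫⁻ x in A, volume B := by
          rw [setLIntegral_const, mul_comm]
      _ ≤ _ := by
          apply setLIntegral_mono' hA
          intro x hx
          have h1 := hAs hx
          have h2 : ‖x‖ < R := by simpa using h1.1
          have h3 : ρ ≤ ‖x‖ := by simpa using h1.2
          exact volB hB hBs x hρR h2 h3
  rw [lintegral_lintegral_swap] at hint
  swap
  · exact ((meas_refl hB).const_mul _).aemeasurable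
  have hle : ∫⁻ q in (Ioo (-Real.pi) Real.pi) ×ˢ (Ioo (-R) 0), ∫⁻ x in A,
      ENNReal.ofReal (4 * R) * B.indicator 1 (refl (e q.1) q.2 x) ≤
      ∫⁻ q in (Ioo (-Real.pi) Real.pi) ×ˢ (Ioo (-R) 0),
        ENNReal.ofReal (4 * R * (κ * volume.real A * volume.real B)) := by
    apply setLIntegral_mono' (measurableSet_Ioo.prod measurableSet_Ioo)
    intro q hq
    have hq2 : q.2 < 0 := hq.2.2
    have h1 := (hcon (e q.1) q.2 (e_norm _) hq2).le
    have hcont : Measurable (fun x : ℂ => refl (e q.1) q.2 x) := by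
      have : Continuous (fun x : ℂ => refl (e q.1) q.2 x) := by unfold Pool.Agent.Q40.LP.refl lin; fun_prop
      exact this.measurable
    have hms : MeasurableSet ((fun x : ℂ => refl (e q.1) q.2 x) ⁻¹' B) := hcont hB
    have h2 : ∫⁻ x in A, ENNReal.ofReal (4 * R) * B.indicator 1 (refl (e q.1) q.2 x)
        = ENNReal.ofReal (4 * R) * volume {x | x ∈ A ∧ refl (e q.1) q.2 x ∈ B} := by
      rw [lintegral_const_mul' _ _ ENNReal.ofReal_ne_top]
      congr 1
      have h3 : (fun x : ℂ => B.indicator (1 : ℂ → ENNReal) (refl (e q.1) q.2 x)) =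
          ((fun x : ℂ => refl (e q.1) q.2 x) ⁻¹' B).indicator 1 := by
        ext x
        rfl
      rw [h3, lintegral_indicator_one hms, Measure.restrict_apply hms]
      congr 1
      ext x
      simp [and_comm]
    rw [h2, ENNReal.ofReal_mul (p := 4 * R) (by positivity)]
    gcongr
    rw [← ENNReal.ofReal_toReal (a := volume {x | x ∈ A ∧ refl (e q.1) q.2 x ∈ B})]
    · exact ENNReal.ofReal_le_ofReal h1
    · exact ((measure_mono (fun x hx => hx.1)).trans_lt (lt_top_iff_ne_top.2 hAfin)).ne
  have htot := hint.trans hle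
  have hpi := Real.pi_pos
  have h7 : volume ((Ioo (-Real.pi) Real.pi) ×ˢ (Ioo (-R) 0)) = ENNReal.ofReal (2 * Real.pi * R) := by
    rw [Measure.volume_eq_prod, Measure.prod_prod, Real.volume_Ioo, Real.volume_Ioo,
      ← ENNReal.ofReal_mul (by linarith)]
    congr 1
    ring
  have h8 : volume A * volume B = ENNReal.ofReal (volume.real A * volume.real B) := by
    rw [ENNReal.ofReal_mul measureReal_nonneg, ofReal_measureReal hAfin, ofReal_measureReal hBfin]
  rw [setLIntegral_const, h7, h8, ← ENNReal.ofReal_mul (by positivity),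
    ENNReal.ofReal_le_ofReal_iff (by positivity)] at htot
  have hk : 4 * R * (κ * volume.real A * volume.real B) * (2 * Real.pi * R) =
      volume.real A * volume.real B / 2 := by
    rw [hκ]
    field_simp
    ring
  rw [hk] at htot
  have : 0 < volume.real A * volume.real B := mul_pos hA0 hB0
  linarith

end Pool.Agent.H289CC.Task11b
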