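import Pool.Agent.H289CC.Stmts

open Set Filter Topology MeasureTheory
open scoped ENNReal Real

namespace Pool.Agent.H289CC.T11fb

open Pool.Agent.Q40.LP Pool.Agent.H289CC

/-- unit vector -/
noncomputable def uv (θ : ℝ) : ℂ := (Real.cos θ : ℂ) + (Real.sin θ : ℂ) * Complex.I

lemma uv_re (θ : ℝ) : (uv θ).re = Real.cos θ := by
  simp [uv, -Complex.ofReal_cos, -Complex.ofReal_sin]

lemma uv_im (θ : ℝ) : (uv θ).im = Real.sin θ := by
  simp [uv, -Complex.ofReal_cos, -Complex.ofReal_sin]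

lemma norm_uv (θ : ℝ) : ‖uv θ‖ = 1 := by
  have h : ‖uv θ‖ ^ 2 = 1 := by
    rw [← Complex.normSq_eq_norm_sq, Complex.normSq_apply, uv_re, uv_im]
    nlinarith [Real.sin_sq_add_cos_sq θ]
  have h0 := norm_nonneg (uv θ)
  nlinarith

/-- inner product with the unit vector -/
noncomputable def ip (θ : ℝ) (x : ℂ) : ℝ := Real.cos θ * x.re + Real.sin θ * x.im

lemma refl_eq (θ t : ℝ) (x : ℂ) :
    refl (uv θ) (t / 2) x = x + ((t - 2 * ip θ x : ℝ) : ℂ) * uv θ := by
  have : (2 * lin (uv θ) (t / 2) x : ℝ) = - (t - 2 * ip θ x) := by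
    unfold lin ip
    rw [uv_re, uv_im]
    ring
  unfold Pool.Agent.Q40.LP.refl
  rw [this]
  push_cast
  ring

lemma nsq (θ s : ℝ) (x : ℂ) : ‖x + (s : ℂ) * uv θ‖ ^ 2 = ‖x‖ ^ 2 + s * (s + 2 * ip θ x) := by
  rw [← Complex.normSq_eq_norm_sq, ← Complex.normSq_eq_norm_sq, Complex.normSq_apply,
    Complex.normSq_apply]
  simp only [Complex.add_re, Complex.add_im, Complex.mul_re, Complex.mul_im, Complex.ofReal_re,
    Complex.ofReal_im, uv_re, uv_im]
  unfold ip
  have h := Real.sin_sq_add_cos_sq θ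
  linear_combination (s ^ 2) * h

lemma ip_ge (θ : ℝ) (x : ℂ) : -‖x‖ ≤ ip θ x := by
  have h := nsq θ (-ip θ x) x
  have h1 : 0 ≤ ‖x + ((-ip θ x : ℝ) : ℂ) * uv θ‖ ^ 2 := by positivity
  have h2 : ip θ x ^ 2 ≤ ‖x‖ ^ 2 := by nlinarith
  have h3 := abs_le_of_sq_le_sq' h2 (norm_nonneg x)
  exact h3.1

lemma pt {R ρ : ℝ} {x : ℂ} (hx1 : ρ ≤ ‖x‖) (hx2 : ‖x‖ < R) (θ t : ℝ)
    (hs : 0 < t - 2 * ip θ x) (hb : ‖x + ((t - 2 * ip θ x : ℝ) : ℂ) * uv θ‖ < ρ) :
    t ∈ Ioo (-(2 * R)) 0 ∧ t - 2 * ip θ x ≤ 2 * R := by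
  have h1 := nsq θ (t - 2 * ip θ x) x
  have h2 : ‖x + ((t - 2 * ip θ x : ℝ) : ℂ) * uv θ‖ ^ 2 < ‖x‖ ^ 2 := by
    have := norm_nonneg (x + ((t - 2 * ip θ x : ℝ) : ℂ) * uv θ)
    nlinarith
  have h3 : (t - 2 * ip θ x) * t < 0 := by
    have : (t - 2 * ip θ x) * (t - 2 * ip θ x + 2 * ip θ x) = (t - 2 * ip θ x) * t := by ring
    rw [this] at h1
    linarith
  have h4 : t < 0 := by
    by_contra h
    push Not at h
    have := mul_nonneg hs.le h
    linarith
  have h5 := ip_ge θ x
  have h5' : -‖x‖ ≤ - ip θ x ∨ True := Or.inr trivial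
  refine ⟨⟨by linarith, h4⟩, by linarith⟩

/-- the function -/
noncomputable def F (B : Set ℂ) (q : ℝ × ℝ) (x : ℂ) : ℝ≥0∞ :=
  B.indicator 1 (refl (uv q.1) (q.2 / 2) x)

lemma inner {R ρ : ℝ} {x : ℂ} {B : Set ℂ} (hB : B ⊆ Metric.ball 0 ρ) (hx1 : ρ ≤ ‖x‖)
    (hx2 : ‖x‖ < R) (θ : ℝ) :
    ∫⁻ s in Ioi (0 : ℝ), ENNReal.ofReal s * B.indicator 1 (x + (s : ℂ) * uv θ) ≤
      ENNReal.ofReal (2 * R) * ∫⁻ t in Ioo (-(2 * R)) 0, F B (θ, t) x := by
  rw [← lintegral_indicator measurableSet_Ioi]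
  rw [← lintegral_sub_right_eq_self _ (2 * ip θ x)]
  rw [← lintegral_const_mul' _ _ ENNReal.ofReal_ne_top, ← lintegral_indicator measurableSet_Ioo]
  refine lintegral_mono fun t => ?_
  by_cases hs : 0 < t - 2 * ip θ x
  · by_cases hb : x + ((t - 2 * ip θ x : ℝ) : ℂ) * uv θ ∈ B
    · have h1 := pt hx1 hx2 θ t hs (by simpa using hB hb)
      rw [indicator_of_mem (show t - 2 * ip θ x ∈ Ioi (0 : ℝ) from hs), indicator_of_mem h1.1]
      have e : F B (θ, t) x = 1 := by
        unfold F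
        simp only
        rw [refl_eq, indicator_of_mem hb]
        rfl
      rw [e, indicator_of_mem hb]
      simp only [Pi.one_apply, mul_one]
      exact ENNReal.ofReal_le_ofReal h1.2
    · rw [indicator_of_mem (show t - 2 * ip θ x ∈ Ioi (0 : ℝ) from hs), indicator_of_notMem hb]
      simp
  · rw [indicator_of_notMem (show t - 2 * ip θ x ∉ Ioi (0 : ℝ) from hs)]
    simp

lemma meas_uv : Measurable uv := by
  unfold uv
  fun_prop

lemma meas_refl : Measurable fun z : (ℝ × ℝ) × ℂ => refl (uv z.1.1) (z.1.2 / 2) z.2 := by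
  have : (fun z : (ℝ × ℝ) × ℂ => refl (uv z.1.1) (z.1.2 / 2) z.2) =
      fun z : (ℝ × ℝ) × ℂ => z.2 + ((z.1.2 - 2 * ip z.1.1 z.2 : ℝ) : ℂ) * uv z.1.1 := by
    funext z
    exact refl_eq _ _ _
  rw [this]
  have := meas_uv
  unfold ip
  fun_prop

lemma meas_F {B : Set ℂ} (hB : MeasurableSet B) :
    Measurable fun z : (ℝ × ℝ) × ℂ => F B z.1 z.2 :=
  (measurable_one.indicator hB).comp meas_refl

lemma perx {R ρ : ℝ} {x : ℂ} {B : Set ℂ} (hBm : MeasurableSet B) (hB : B ⊆ Metric.ball 0 ρ)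
    (hx1 : ρ ≤ ‖x‖) (hx2 : ‖x‖ < R) :
    volume B ≤ ENNReal.ofReal (2 * R) *
      ∫⁻ q, F B q x ∂((volume.restrict (Ioo (-π) π)).prod (volume.restrict (Ioo (-(2 * R)) 0))) := by
  have h1 : volume B = ∫⁻ y : ℂ, B.indicator 1 (x + y) := by
    rw [lintegral_add_left_eq_self (fun y => B.indicator (1 : ℂ → ℝ≥0∞) y) x]
    rw [lintegral_indicator_one hBm]
  have hm : Measurable fun y : ℂ => B.indicator (1 : ℂ → ℝ≥0∞) (x + y) :=
    (measurable_one.indicator hBm).comp (measurable_const_add x)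
  rw [h1, ← Complex.lintegral_comp_polarCoord_symm]
  have h2 : (volume : Measure (ℝ × ℝ)).restrict polarCoord.target =
      (volume.restrict (Ioi (0 : ℝ))).prod (volume.restrict (Ioo (-π) π)) := by
    rw [Measure.prod_restrict]
    rfl
  rw [h2, lintegral_prod_symm]
  · rw [lintegral_prod]
    · rw [← lintegral_const_mul' _ _ ENNReal.ofReal_ne_top]
      refine lintegral_mono fun θ => ?_
      refine le_trans (le_of_eq ?_) (inner hB hx1 hx2 θ)
      refine lintegral_congr fun s => ?_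
      rw [Complex.polarCoord_symm_apply]
      rfl
    · exact ((meas_F hBm).comp (measurable_id.prodMk measurable_const)).aemeasurable
  · refine Measurable.aemeasurable ?_
    refine Measurable.mul (by fun_prop) (hm.comp ?_)
    have : (fun p : ℝ × ℝ => Complex.polarCoord.symm p) =
        fun p : ℝ × ℝ => (p.1 : ℂ) * (Real.cos p.2 + Real.sin p.2 * Complex.I) := by
      funext p
      exact Complex.polarCoord_symm_apply p
    have h3 : Measurable (fun p : ℝ × ℝ => Complex.polarCoord.symm p) := by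
      rw [this]
      fun_prop
    exact h3

theorem main : Task11 := by
  intro R hR
  refine ⟨1 / (16 * π * R ^ 2), by positivity, ?_⟩
  intro ρ A B hρ hρR hA hB hAs hBs hA0 hB0
  by_contra hcon
  push Not at hcon
  have hAfin : volume A ≠ ∞ := by
    have : volume A ≤ volume (Metric.ball (0 : ℂ) R) := measure_mono (hAs.trans sdiff_subset)
    exact ne_top_of_le_ne_top measure_ball_lt_top.ne this
  have hBfin : volume B ≠ ∞ := by
    have : volume B ≤ volume (Metric.ball (0 : ℂ) ρ) := measure_mono hBs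
    exact ne_top_of_le_ne_top measure_ball_lt_top.ne this
  set a := volume.real A with ha
  set b := volume.real B with hb
  set μ := ((volume : Measure ℝ).restrict (Ioo (-π) π)).prod
    ((volume : Measure ℝ).restrict (Ioo (-(2 * R)) 0)) with hμ
  -- the sets
  have hM : ∀ q : ℝ × ℝ, q.2 < 0 → ∫⁻ x in A, F B q x ≤ ENNReal.ofReal (1 / (16 * π * R ^ 2) * a * b) := by
    intro q hq
    have h1 := hcon (uv q.1) (q.2 / 2) (norm_uv _) (by linarith)
    have h2 : ∫⁻ x in A, F B q x = volume {x | x ∈ A ∧ refl (uv q.1) (q.2 / 2) x ∈ B} := by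
      have h3 : MeasurableSet ((fun x => refl (uv q.1) (q.2 / 2) x) ⁻¹' B) :=
        (meas_refl.comp (measurable_const.prodMk measurable_id) : Measurable fun x : ℂ =>
          refl (uv q.1) (q.2 / 2) x) hB
      have h4 : (fun x => F B q x) =
          ((fun x => refl (uv q.1) (q.2 / 2) x) ⁻¹' B).indicator (1 : ℂ → ℝ≥0∞) := by
        funext x
        unfold F
        by_cases hx : refl (uv q.1) (q.2 / 2) x ∈ B
        · rw [indicator_of_mem hx, indicator_of_mem (by exact hx)]; rfl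
        · rw [indicator_of_notMem hx, indicator_of_notMem (by exact hx)]
      rw [h4, lintegral_indicator_one h3, Measure.restrict_apply h3]
      congr 1
      ext x
      simp [and_comm]
    rw [h2]
    have hfin : volume {x | x ∈ A ∧ refl (uv q.1) (q.2 / 2) x ∈ B} ≠ ∞ :=
      ne_top_of_le_ne_top hAfin (measure_mono fun x hx => hx.1)
    rw [← ENNReal.ofReal_toReal hfin]
    exact ENNReal.ofReal_le_ofReal h1.le
  have h5 : volume A * volume B ≤ ENNReal.ofReal (2 * R) *
      (ENNReal.ofReal (1 / (16 * π * R ^ 2) * a * b) * μ univ) := by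
    calc volume A * volume B = ∫⁻ x in A, volume B := by
          rw [lintegral_const, Measure.restrict_apply_univ, mul_comm]
      _ ≤ ∫⁻ x in A, ENNReal.ofReal (2 * R) * ∫⁻ q, F B q x ∂μ := by
          refine setLIntegral_mono' hA fun x hx => ?_
          have hx' := hAs hx
          refine perx hB hBs ?_ ?_
          · have := hx'.2
            simpa using this
          · simpa using hx'.1
      _ = ENNReal.ofReal (2 * R) * ∫⁻ x in A, ∫⁻ q, F B q x ∂μ :=
          lintegral_const_mul' _ _ ENNReal.ofReal_ne_top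
      _ = ENNReal.ofReal (2 * R) * ∫⁻ q, (∫⁻ x in A, F B q x) ∂μ := by
          congr 1
          rw [lintegral_lintegral_swap]
          exact ((meas_F hB).comp measurable_swap).aemeasurable
      _ ≤ ENNReal.ofReal (2 * R) *
          (ENNReal.ofReal (1 / (16 * π * R ^ 2) * a * b) * μ univ) := by
          gcongr
          rw [← lintegral_const]
          refine lintegral_mono_ae ?_
          have : ∀ᵐ q ∂μ, q.2 < 0 := by
            have h7 : μ = ((volume : Measure ℝ).prod volume).restrict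
                ((Ioo (-π) π) ×ˢ (Ioo (-(2 * R)) 0)) := by
              rw [hμ, Measure.prod_restrict]
            rw [h7]
            filter_upwards [ae_restrict_mem (measurableSet_Ioo.prod measurableSet_Ioo)] with q hq
            exact hq.2.2
          filter_upwards [this] with q hq
          exact hM q hq
  have h6 : μ univ = ENNReal.ofReal (2 * π * (2 * R)) := by
    rw [hμ, ← univ_prod_univ, Measure.prod_prod, Measure.restrict_apply_univ,
      Measure.restrict_apply_univ, Real.volume_Ioo, Real.volume_Ioo,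
      ← ENNReal.ofReal_mul (by linarith [Real.pi_pos])]
    congr 1
    ring
  rw [h6, ← ENNReal.ofReal_toReal hAfin, ← ENNReal.ofReal_toReal hBfin,
    ← ENNReal.ofReal_mul ENNReal.toReal_nonneg, ← ENNReal.ofReal_mul (by positivity),
    ← ENNReal.ofReal_mul (by positivity)] at h5
  have h8 := (ENNReal.ofReal_le_ofReal_iff (by positivity)).1 h5
  have h9 : 2 * R * (1 / (16 * π * R ^ 2) * a * b * (2 * π * (2 * R))) = a * b / 2 := by
    field_simp
    ring
  rw [h9] at h8
  have h10 : 0 < a * b := mul_pos hA0 hB0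
  have h11 : (volume A).toReal * (volume B).toReal = a * b := rfl
  rw [h11] at h8
  linarith

end Pool.Agent.H289CC.T11fb
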