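import Pool.Agent.H289CC.Stmts

open Set Filter Topology MeasureTheory

namespace Pool.Agent.H289CC.Task12

open Pool.Agent.Q40.LP Pool.Agent.H289CC

lemma diff_eq {Ω : Set ℂ} {ρ : ℝ} (hΩ : IsOpen Ω)
    (hv : volume Ω = volume (Metric.ball (0 : ℂ) ρ)) :
    volume.real (Metric.ball (0 : ℂ) ρ \ Ω) = volume.real (Ω \ Metric.ball 0 ρ) := by
  have hfin : volume (Metric.ball (0 : ℂ) ρ) ≠ ⊤ := measure_ball_lt_top.ne
  have hfin' : volume Ω ≠ ⊤ := by rw [hv]; exact hfin
  have h1 := measureReal_inter_add_diff (μ := volume) (s := Metric.ball (0 : ℂ) ρ)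
    hΩ.measurableSet hfin
  have h2 := measureReal_inter_add_diff (μ := volume) (s := Ω)
    (measurableSet_ball (x := (0 : ℂ)) (ε := ρ)) hfin'
  have h3 : volume.real Ω = volume.real (Metric.ball (0 : ℂ) ρ) := by
    simp only [Measure.real, hv]
  rw [inter_comm] at h2
  linarith

theorem main : Pool.Agent.H289CC.Task12 := by
  intro hM h9 h10 h11 R ρ Ω hρ hρR hΩ hsub hvol ε hε
  obtain ⟨κ, hκ, h11⟩ := h11 R (lt_of_lt_of_le hρ hρR)
  have key : ∀ k : ℕ, ∃ Ω' : Set ℂ, IsOpen Ω' ∧ Ω' ⊆ Metric.ball 0 R ∧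
      volume Ω' = volume (Metric.ball (0 : ℂ) ρ) ∧ tau Ω ≤ tau Ω' ∧
      (volume.real (Ω' \ Metric.ball 0 ρ) < ε ∨
       volume.real (Ω' \ Metric.ball 0 ρ) ≤
        volume.real (Ω \ Metric.ball 0 ρ) - k * (κ * ε ^ 2)) := by
    intro k
    induction k with
    | zero => exact ⟨Ω, hΩ, hsub, hvol, le_rfl, Or.inr (by simp)⟩
    | succ k ih =>
      obtain ⟨Ω', ho, hs, hv, ht, h⟩ := ih
      by_cases hlt : volume.real (Ω' \ Metric.ball 0 ρ) < ε
      · exact ⟨Ω', ho, hs, hv, ht, Or.inl hlt⟩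
      · have hle := h.resolve_left hlt
        rw [not_lt] at hlt
        have hpos : 0 < volume.real (Ω' \ Metric.ball (0 : ℂ) ρ) := lt_of_lt_of_le hε hlt
        have heq := diff_eq ho hv
        obtain ⟨n, c, hn, hc, hineq⟩ := h11 ρ (Ω' \ Metric.ball 0 ρ) (Metric.ball 0 ρ \ Ω') hρ hρR
          (ho.measurableSet.diff measurableSet_ball) (measurableSet_ball.diff ho.measurableSet)
          (diff_subset_diff_left hs) diff_subset hpos (by rw [heq]; exact hpos)
        obtain ⟨p1, p2, p3⟩ := h9 n c hn hc R Ω' ho hs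
        have p4 := h10 n c hn hc R ρ Ω' ho hs
        refine ⟨polar n c Ω', p1, p2, p3.trans hv,
          ht.trans (hM n c hn Ω' ho (Metric.isBounded_ball.subset hs)), Or.inr ?_⟩
        rw [heq] at hineq
        have h5 : κ * ε ^ 2 ≤ κ * volume.real (Ω' \ Metric.ball (0 : ℂ) ρ) *
            volume.real (Ω' \ Metric.ball (0 : ℂ) ρ) := by
          rw [mul_assoc]
          apply mul_le_mul_of_nonneg_left _ hκ.le
          rw [sq]
          exact mul_le_mul hlt hlt hε.le hpos.le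
        push_cast
        linarith
  obtain ⟨k, hk⟩ := exists_nat_gt (volume.real (Ω \ Metric.ball 0 ρ) / (κ * ε ^ 2))
  obtain ⟨Ω', ho, hs, hv, ht, h⟩ := key k
  refine ⟨Ω', ho, hs, ht, ?_⟩
  rw [diff_eq ho hv]
  rcases h with h | h
  · exact h
  · exfalso
    have h0 : 0 ≤ volume.real (Ω' \ Metric.ball (0 : ℂ) ρ) := measureReal_nonneg
    rw [div_lt_iff₀ (by positivity)] at hk
    linarith

end Pool.Agent.H289CC.Task12
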