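import Pool.Agent.H289CC.Stmts

/-! Blueprint for MP_ccba21_an: upper semicontinuity (helper182). -/

open Set Filter Topology MeasureTheory

namespace Pool.Agent.H289CC.Task13
open Pool.Agent.Q40.LP Pool.Agent.H289CC

theorem main : Pool.Agent.H289CC.Task13 := by
  intro _ hBd hSy hBi R ρ l m v hρ hρR hl hml hv
  obtain ⟨⟨hv2, hv0⟩, hvne, hve⟩ := hv
  obtain ⟨C, hC, hCb⟩ := hBd ρ hρ
  have hvint : Integrable (fun x => v x ^ 2) := hv2.integrable_sq
  have hout : ∀ x : ℂ, ρ < ‖x‖ → x ∉ Metric.ball (0 : ℂ) ρ := by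
    intro x hx h
    rw [Metric.mem_ball, dist_zero_right] at h
    linarith
  have hN : 0 < ∫ x, v x ^ 2 := by
    refine lt_of_le_of_ne (integral_nonneg fun x => sq_nonneg _) fun h => hvne ?_
    have h1 := (integral_eq_zero_iff_of_nonneg (fun x => sq_nonneg (v x)) hvint).1 h.symm
    filter_upwards [h1] with x hx
    have h2 : v x ^ 2 = 0 := hx
    exact pow_eq_zero_iff (two_ne_zero) |>.1 h2
  obtain ⟨N, hNd⟩ : ∃ N, N = ∫ x, v x ^ 2 := ⟨_, rfl⟩
  rw [← hNd] at hN
  obtain ⟨b, hbd⟩ : ∃ b, b = volume.real (Metric.ball (0 : ℂ) ρ) := ⟨_, rfl⟩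
  have hb : 0 ≤ b := by rw [hbd]; exact measureReal_nonneg
  obtain ⟨K, hKd⟩ : ∃ K, K = (l - 2 * m) + C * (b + 1) / 2 := ⟨_, rfl⟩
  have hK : 0 < K := by
    have : 0 < C * (b + 1) / 2 := by positivity
    rw [hKd]; linarith
  obtain ⟨η, hη0, hη1, hη2⟩ : ∃ η : ℝ, 0 < η ∧ η ≤ N / 2 ∧ K * η ≤ (l - m) * N := by
    refine ⟨min (N / 2) ((l - m) * N / K), lt_min (by linarith)
      (div_pos (mul_pos (by linarith) hN) hK), min_le_left _ _, ?_⟩
    calc K * min (N / 2) ((l - m) * N / K) ≤ K * ((l - m) * N / K) :=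
          mul_le_mul_of_nonneg_left (min_le_right _ _) hK.le
      _ = (l - m) * N := by field_simp
  -- absolute continuity
  have hfin : ∫⁻ x, ENNReal.ofReal (v x ^ 2) ≠ ⊤ := by
    rw [← ofReal_integral_eq_lintegral_ofReal hvint (Eventually.of_forall fun x => sq_nonneg _)]
    exact ENNReal.ofReal_ne_top
  obtain ⟨δ, hδ, hac⟩ := exists_pos_setLIntegral_lt_of_measure_lt hfin
    (ENNReal.ofReal_pos.2 hη0).ne'
  obtain ⟨ε, hε, hεδ⟩ : ∃ ε : ℝ, 0 < ε ∧ ENNReal.ofReal ε ≤ δ := by
    rcases eq_or_ne δ ⊤ with h | h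
    · exact ⟨1, one_pos, by rw [h]; exact le_top⟩
    · exact ⟨δ.toReal, ENNReal.toReal_pos hδ.ne' h, by rw [ENNReal.ofReal_toReal h]⟩
  refine ⟨ε, hε, fun Ω' hΩ' hsub hvol => ?_⟩
  have hS : MeasurableSet (Metric.ball (0 : ℂ) ρ \ Ω') :=
    Metric.isOpen_ball.measurableSet.diff hΩ'.measurableSet
  obtain ⟨S, hSd⟩ : ∃ S, S = Metric.ball (0 : ℂ) ρ \ Ω' := ⟨_, rfl⟩
  rw [← hSd] at hS hvol
  have hSsub : S ⊆ Metric.ball (0 : ℂ) ρ := by rw [hSd]; exact sdiff_subset
  have hSfin : volume S ≠ ⊤ :=
    ne_top_of_le_ne_top (measure_ball_lt_top (x := (0 : ℂ)) (r := ρ)).ne (measure_mono hSsub)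
  have hSvol : volume S < δ := by
    refine lt_of_lt_of_le ?_ hεδ
    rw [ENNReal.lt_ofReal_iff_toReal_lt hSfin]
    exact hvol
  have hw2 : MemLp (S.indicator v) 2 volume := hv2.indicator hS
  have hu2 : MemLp (Ω'.indicator v) 2 volume := hv2.indicator hΩ'.measurableSet
  have hw0 : ∀ x, x ∉ Metric.ball (0 : ℂ) ρ → S.indicator v x = 0 := fun x hx =>
    indicator_of_notMem (fun h => hx (hSsub h)) _
  have hu0 : ∀ x, x ∉ Metric.ball (0 : ℂ) ρ → Ω'.indicator v x = 0 := by
    intro x hx
    classical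
    rw [indicator_apply]; split_ifs
    · exact hv0 x hx
    · rfl
  have gv : Good v := ⟨hv2, ρ, fun x hx => hv0 x (hout x hx)⟩
  have gw : Good (S.indicator v) := ⟨hw2, ρ, fun x hx => hw0 x (hout x hx)⟩
  have gu : Good (Ω'.indicator v) := ⟨hu2, ρ, fun x hx => hu0 x (hout x hx)⟩
  have hdec : Ω'.indicator v = fun y => 1 * v y + (-1) * S.indicator v y := by
    funext x
    classical
    rw [indicator_apply, indicator_apply]
    by_cases h1 : x ∈ Ω'
    · have h2 : x ∉ S := by rw [hSd]; exact fun h => h.2 h1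
      rw [if_pos h1, if_neg h2]; ring
    · by_cases h3 : x ∈ Metric.ball (0 : ℂ) ρ
      · have h2 : x ∈ S := by rw [hSd]; exact ⟨h3, h1⟩
        rw [if_neg h1, if_pos h2]; ring
      · have h2 : x ∉ S := fun h => h3 (hSsub h)
        rw [if_neg h1, if_neg h2, hv0 x h3]; ring
  have hwint : Integrable (fun x => S.indicator v x ^ 2) := hw2.integrable_sq
  obtain ⟨d, hdd⟩ : ∃ d, d = ∫ x, S.indicator v x ^ 2 := ⟨_, rfl⟩
  have hd0 : 0 ≤ d := by rw [hdd]; exact integral_nonneg fun x => sq_nonneg _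
  have hdη : d ≤ η := by
    have h1 := hac S hSvol
    have h2 : (fun x => S.indicator v x ^ 2) = S.indicator fun x => v x ^ 2 := by
      funext x
      classical
      rw [indicator_apply, indicator_apply]
      split_ifs
      · rfl
      · norm_num
    rw [hdd, h2, integral_indicator hS]
    have h3 := ofReal_integral_eq_lintegral_ofReal (hvint.integrableOn (s := S))
      (Eventually.of_forall fun x => sq_nonneg (v x))
    rw [← h3] at h1
    exact ((ENNReal.ofReal_lt_ofReal_iff hη0).1 h1).le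
  -- the energies
  have e1 : En v v = m * N := by
    unfold En
    rw [hNd, ← integral_const_mul]
    refine integral_congr_ae ?_
    filter_upwards [hve] with x hx
    by_cases h : x ∈ Metric.ball (0 : ℂ) ρ
    · rw [hx h]; ring
    · rw [hv0 x h]; ring
  have e2 : En v (S.indicator v) = m * d := by
    unfold En
    rw [hdd, ← integral_const_mul]
    refine integral_congr_ae ?_
    filter_upwards [hve] with x hx
    classical
    rw [indicator_apply]
    split_ifs with h
    · rw [hx (hSsub h)]; ring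
    · ring
  have e3 : En (S.indicator v) (S.indicator v) ≤ C * (b + 1) / 2 * d := by
    have hi : Integrable (fun x => (Metric.ball (0 : ℂ) ρ).indicator (fun _ => C * d / 2) x +
        C / 2 * S.indicator v x ^ 2) := by
      refine Integrable.add ?_ (hwint.const_mul _)
      rw [integrable_indicator_iff Metric.isOpen_ball.measurableSet]
      exact integrableOn_const (measure_ball_lt_top (x := (0 : ℂ)) (r := ρ)).ne
    have h1 : En (S.indicator v) (S.indicator v) ≤
        ∫ x, ((Metric.ball (0 : ℂ) ρ).indicator (fun _ => C * d / 2) x +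
          C / 2 * S.indicator v x ^ 2) := by
      unfold En
      refine integral_mono (hBi _ _ _ gw gw gw 1 1).2.2.2 hi fun x => ?_
      show pot (S.indicator v) x * S.indicator v x ≤
        (Metric.ball (0 : ℂ) ρ).indicator (fun _ => C * d / 2) x + C / 2 * S.indicator v x ^ 2
      by_cases h : x ∈ Metric.ball (0 : ℂ) ρ
      · rw [indicator_of_mem h]
        have h2 : ‖x‖ ≤ ρ := by
          rw [Metric.mem_ball, dist_zero_right] at h; exact h.le
        have h3 := hCb _ hw2 (fun x hx => hw0 x (hout x hx)) x h2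
        rw [← hdd] at h3
        obtain ⟨a, ha⟩ : ∃ a, a = S.indicator v x := ⟨_, rfl⟩
        rw [← ha]
        have h4 : pot (S.indicator v) x * a ≤ C * √d * |a| := by
          calc pot (S.indicator v) x * a ≤ |pot (S.indicator v) x * a| := le_abs_self _
            _ = |pot (S.indicator v) x| * |a| := abs_mul _ _
            _ ≤ C * √d * |a| := mul_le_mul_of_nonneg_right h3 (abs_nonneg _)
        have h5 : √d * √d = d := Real.mul_self_sqrt hd0
        have h6 : |a| * |a| = a ^ 2 := by rw [abs_mul_abs_self]; ring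
        nlinarith [sq_nonneg (√d - |a|)]
      · rw [indicator_of_notMem h, hw0 x h]
        norm_num
    refine h1.trans (le_of_eq ?_)
    rw [integral_add, integral_const_mul, ← hdd,
      integral_indicator Metric.isOpen_ball.measurableSet, setIntegral_const, ← hbd, smul_eq_mul]
    · ring
    · rw [integrable_indicator_iff Metric.isOpen_ball.measurableSet]
      exact integrableOn_const (measure_ball_lt_top (x := (0 : ℂ)) (r := ρ)).ne
    · exact hwint.const_mul _
  have e4 : En (Ω'.indicator v) (Ω'.indicator v) =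
      En v v - En v (S.indicator v) - En (S.indicator v) v +
        En (S.indicator v) (S.indicator v) := by
    have a1 := (hBi v (S.indicator v) (Ω'.indicator v) gv gw gu 1 (-1)).2.1
    have a2 := (hBi v (S.indicator v) v gv gw gv 1 (-1)).2.2.1
    have a3 := (hBi v (S.indicator v) (S.indicator v) gv gw gw 1 (-1)).2.2.1
    rw [← hdec] at a1 a2 a3
    rw [a1, a2, a3]; ring
  have e5 : ∫ x, Ω'.indicator v x ^ 2 = N - d := by
    rw [hNd, hdd, ← integral_sub hvint hwint]
    refine integral_congr_ae (Eventually.of_forall fun x => ?_)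
    show Ω'.indicator v x ^ 2 = v x ^ 2 - S.indicator v x ^ 2
    have h1 := congrFun hdec x
    classical
    rw [h1, indicator_apply]
    split_ifs <;> ring
  refine ⟨Ω'.indicator v, ⟨hu2, fun x hx => indicator_of_notMem hx _⟩, fun h => ?_, ?_⟩
  · have h1 : ∫ x, Ω'.indicator v x ^ 2 = 0 := by
      have h2 : (fun x => Ω'.indicator v x ^ 2) =ᵐ[volume] fun _ => (0 : ℝ) := by
        filter_upwards [h] with x hx
        rw [hx]; simp
      rw [integral_congr_ae h2]; simp
    rw [e5] at h1
    linarith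
  · rw [e4, e5, hSy (S.indicator v) v gw gv, e1, e2]
    have h1 : K * d ≤ (l - m) * N := (mul_le_mul_of_nonneg_left hdη hK.le).trans hη2
    rw [hKd] at h1
    nlinarith

end Pool.Agent.H289CC.Task13
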