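import Pool.Agent.H289CC.Stmts

set_option autoImplicit false

namespace Pool.Agent.H289CC.Task14

open MeasureTheory Set

theorem main : Pool.Agent.H289CC.Task14 := by
  intro R Ω ho hne hsub
  have hvol : ∀ r : ℝ, 0 ≤ r →
      volume (Metric.ball (0 : ℂ) r) = ENNReal.ofReal (r ^ 2 * Real.pi) := by
    intro r hr
    rw [Complex.volume_ball, ← ENNReal.ofReal_pow hr, ENNReal.ofReal_mul (by positivity)]
    congr 1
    rw [← NNReal.coe_real_pi, ENNReal.ofReal_coe_nnreal]
  have hR : 0 < R := by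
    obtain ⟨x, hx⟩ := hne
    exact Metric.pos_of_mem_ball (hsub hx)
  have hpos : 0 < volume Ω := ho.measure_pos volume hne
  have hle : volume Ω ≤ ENNReal.ofReal (R ^ 2 * Real.pi) := by
    rw [← hvol R hR.le]
    exact measure_mono hsub
  have hfin : volume Ω ≠ ⊤ := (hle.trans_lt ENNReal.ofReal_lt_top).ne
  have hVpos : 0 < (volume Ω).toReal := ENNReal.toReal_pos hpos.ne' hfin
  refine ⟨Real.sqrt ((volume Ω).toReal / Real.pi), Real.sqrt_pos.2 (by positivity), ?_, ?_⟩
  · rw [Real.sqrt_le_left hR.le, div_le_iff₀ Real.pi_pos]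
    exact ENNReal.toReal_le_of_le_ofReal (by positivity) hle
  · rw [hvol _ (Real.sqrt_nonneg _), Real.sq_sqrt (by positivity),
      div_mul_cancel₀ _ Real.pi_ne_zero, ENNReal.ofReal_toReal hfin]

end Pool.Agent.H289CC.Task14
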