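import Pool.Agent.H289CC.Stmts

set_option autoImplicit false

open Set Filter Topology MeasureTheory

namespace Pool.Agent.H289CC.T2

open Pool.Agent.Q40.LP Pool.Agent.H289CC

theorem main : Task2 := by
  intro hMin hBdd h1 R hR
  set B : Set ℂ := Metric.ball (0 : ℂ) R with hB
  set u : ℂ → ℝ := B.indicator fun _ => (1 : ℝ) with hu
  have hR0 : 0 < R := by linarith
  have hBm : MeasurableSet B := measurableSet_ball
  have hBb : Bornology.IsBounded B := Metric.isBounded_ball
  have hBfin : volume B ≠ ⊤ := measure_ball_lt_top.ne
  have hBpos : 0 < volume B := Metric.measure_ball_pos _ _ hR0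
  have hui : Integrable u := (integrable_indicator_iff hBm).2 (integrableOn_const hBfin)
  have huL : MemLp u 2 volume := memLp_indicator_const 2 hBm 1 (Or.inr hBfin)
  have hmem : ∀ x, x ∈ B → u x = 1 := fun x hx => indicator_of_mem hx _
  have hnot : ∀ x, x ∉ B → u x = 0 := fun x hx => indicator_of_notMem hx _
  have hIn : In B u := ⟨huL, hnot⟩
  have hne : ¬ u =ᵐ[volume] 0 := by
    intro h
    have h2 : volume B = 0 := by
      apply measure_mono_null _ (ae_iff.1 h)
      intro x hx
      change ¬ u x = 0
      rw [hmem x hx]
      exact one_ne_zero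
    exact hBpos.ne' h2
  have hp : ∀ x ∈ B, pot u x ≤ -1 := by
    intro x hx
    exact h1 R hR x (by simpa [hB] using hx)
  have hlow : ∀ x ∈ B, -(Real.log (2 * R) * ∫ y, u y) ≤ pot u x := by
    intro x hx
    have hint : Integrable (fun y => Real.log (1 / ‖x - y‖) * u y) := by
      by_contra hc
      have h3 := hp x hx
      unfold pot at h3
      rw [integral_undef hc] at h3
      linarith
    have e : -(Real.log (2 * R) * ∫ y, u y) = ∫ y, -(Real.log (2 * R)) * u y := by
      rw [integral_const_mul]
      ring
    rw [e]
    unfold pot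
    apply integral_mono (hui.const_mul _) hint
    intro y
    simp only
    by_cases hy : y ∈ B
    · rw [hmem y hy, mul_one, mul_one]
      have hx' : ‖x‖ < R := by simpa [hB] using hx
      have hy' : ‖y‖ < R := by simpa [hB] using hy
      have hxy : ‖x - y‖ ≤ 2 * R := (norm_sub_le x y).trans (by linarith)
      rcases (norm_nonneg (x - y)).eq_or_lt with h0 | h0
      · rw [← h0]
        simp only [div_zero, Real.log_zero]
        have : 0 ≤ Real.log (2 * R) := Real.log_nonneg (by linarith)
        linarith
      · rw [one_div, Real.log_inv]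
        have := Real.log_le_log h0 hxy
        linarith
    · rw [hnot y hy]
      simp
  have hpm : Measurable (pot u) := by
    have hum : Measurable u := measurable_const.indicator hBm
    have : Measurable fun p : ℂ × ℂ => Real.log (1 / ‖p.1 - p.2‖) * u p.2 := by
      apply Measurable.mul
      · exact Real.measurable_log.comp
          (measurable_const.div ((measurable_fst.sub measurable_snd).norm))
      · exact hum.comp measurable_snd
    exact (this.stronglyMeasurable.integral_prod_right').measurable
  have hpi : Integrable (fun x => pot u x * u x) := by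
    set M := |Real.log (2 * R) * ∫ y, u y| + 1 with hM
    apply Integrable.mono' (hui.const_mul M)
    · exact (hpm.mul (measurable_const.indicator hBm)).aestronglyMeasurable
    · apply ae_of_all
      intro x
      by_cases hx : x ∈ B
      · rw [hmem x hx, mul_one, mul_one, Real.norm_eq_abs, abs_le]
        have a1 := hp x hx
        have a2 := hlow x hx
        have a3 := le_abs_self (Real.log (2 * R) * ∫ y, u y)
        have a4 := abs_nonneg (Real.log (2 * R) * ∫ y, u y)
        constructor <;> linarith
      · rw [hnot x hx]
        simp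
  have hsq : ∀ x, u x ^ 2 = u x := by
    intro x
    by_cases hx : x ∈ B
    · rw [hmem x hx]; norm_num
    · rw [hnot x hx]; norm_num
  have hEn : En u u ≤ (-1) * ∫ x, u x ^ 2 := by
    simp_rw [hsq]
    rw [← integral_const_mul]
    unfold En
    apply integral_mono hpi (hui.const_mul _)
    intro x
    simp only
    by_cases hx : x ∈ B
    · rw [hmem x hx]
      linarith [hp x hx]
    · rw [hnot x hx]
      simp
  obtain ⟨m, hm, v, hv⟩ := hMin B hBm hBb (-1) u hIn hne (by norm_num) hEn
  obtain ⟨C, hC⟩ := hBdd B hBm hBb
  unfold tau
  have hmm : m ∈ ({0} : Set ℝ) ∪ {τ : ℝ | τ < 0 ∧ ∃ u, IsEig B τ u} :=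
    Or.inr ⟨by linarith, v, hv⟩
  refine (csInf_le ?_ hmm).trans hm
  refine ⟨min C 0, ?_⟩
  rintro x (hx | ⟨_, w, hw⟩)
  · rw [mem_singleton_iff] at hx
    rw [hx]
    exact min_le_right _ _
  · exact (min_le_left _ _).trans (hC x w hw)

end Pool.Agent.H289CC.T2
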