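import Pool.Agent.H289CC.Stmts

/-! # Proof of `Task3` -/

set_option autoImplicit false

open Set Filter Topology MeasureTheory

namespace Pool.Agent.H289CC.Task3

open Pool.Agent.Q40.LP

theorem main : Pool.Agent.H289CC.Task3 := by
  intro hB R hR
  obtain ⟨C, hC0, hC⟩ := hB R hR
  refine ⟨C, hC0, fun Ω hΩm hΩ τ u hu => ?_⟩
  obtain ⟨⟨hL2, hoff⟩, hne, hae⟩ := hu
  have hoff' : ∀ x : ℂ, R < ‖x‖ → u x = 0 := by
    intro x hx
    apply hoff
    intro hxΩ
    have := hΩ hxΩ
    rw [mem_ball_zero_iff] at this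
    linarith
  have hint : Integrable (fun x => u x ^ 2) := hL2.integrable_sq
  obtain ⟨S, hS⟩ : ∃ S, S = ∫ y, u y ^ 2 := ⟨_, rfl⟩
  have hS0 : 0 < S := by
    rw [hS]
    have h0 : 0 ≤ ∫ y, u y ^ 2 := integral_nonneg fun x => sq_nonneg _
    refine lt_of_le_of_ne h0 (fun h => hne ?_)
    have h1 := (integral_eq_zero_iff_of_nonneg (fun x => sq_nonneg (u x)) hint).1 h.symm
    filter_upwards [h1] with x hx
    have : u x ^ 2 = 0 := hx
    exact pow_eq_zero_iff (two_ne_zero) |>.1 this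
  have hfin : volume Ω ≠ ⊤ := ne_top_of_le_ne_top measure_ball_lt_top.ne (measure_mono hΩ)
  have hpt : ∀ᵐ x, τ ^ 2 * u x ^ 2 ≤ Ω.indicator (fun _ => C ^ 2 * S) x := by
    filter_upwards [hae] with x hx
    by_cases h : x ∈ Ω
    · rw [Set.indicator_of_mem h]
      have h1 := hx h
      have h7 : ‖x‖ ≤ R := by
        have := hΩ h
        rw [mem_ball_zero_iff] at this
        exact this.le
      have h2 := hC u hL2 hoff' x h7
      rw [h1, ← hS] at h2
      have h3 : (τ * u x) ^ 2 ≤ (C * √S) ^ 2 := by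
        rw [← sq_abs (τ * u x)]
        exact pow_le_pow_left₀ (abs_nonneg _) h2 2
      rw [mul_pow, mul_pow, Real.sq_sqrt hS0.le] at h3
      exact h3
    · rw [Set.indicator_of_notMem h, hoff x h]
      simp
  have hmono : ∫ x, τ ^ 2 * u x ^ 2 ≤ ∫ x, Ω.indicator (fun _ => C ^ 2 * S) x := by
    apply integral_mono_ae (hint.const_mul _) _ hpt
    exact (integrable_indicator_iff hΩm).2 (integrableOn_const hfin)
  rw [integral_const_mul, integral_indicator hΩm, setIntegral_const, smul_eq_mul, ← hS] at hmono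
  have h5 : τ ^ 2 ≤ C ^ 2 * volume.real Ω := by
    by_contra hcon
    push Not at hcon
    nlinarith
  have h6 : |τ| ≤ √(C ^ 2 * volume.real Ω) := Real.abs_le_sqrt h5
  rw [Real.sqrt_mul (sq_nonneg _), Real.sqrt_sq hC0.le] at h6
  exact h6

end Pool.Agent.H289CC.Task3
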