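import Pool.Agent.H289CC.Stmts

set_option autoImplicit false

open Set Filter Topology MeasureTheory

namespace Pool.Agent.H289CC.Task4

theorem main : Pool.Agent.H289CC.Task4 := by
  intro R ε hR hε
  have h8 : 0 < ε / (8 * R) := by positivity
  set r := max (R / 2) (R - ε / (8 * R)) with hr
  have hr0 : 0 < r := lt_max_of_lt_left (by positivity)
  have hrR : r < R := max_lt (by linarith) (by linarith)
  refine ⟨r, hr0, hrR, ?_⟩
  have hsub : ann r R ⊆ Metric.ball 0 R \ Metric.ball 0 r := by
    rintro x ⟨h1, h2⟩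
    refine ⟨mem_ball_zero_iff.2 h2, fun h => ?_⟩
    rw [mem_ball_zero_iff] at h
    exact absurd h (not_lt.2 h1.le)
  have hvol : ∀ s : ℝ, 0 < s → volume.real (Metric.ball (0 : ℂ) s) = Real.pi * s ^ 2 := by
    intro s hs
    rw [Measure.real, Complex.volume_ball, ENNReal.toReal_mul, ENNReal.toReal_pow,
      ENNReal.toReal_ofReal hs.le]
    rw [mul_comm]
    rfl
  have hfin : volume (Metric.ball (0 : ℂ) R) ≠ ⊤ := measure_ball_lt_top.ne
  have h1 : volume.real (ann r R) ≤ volume.real (Metric.ball (0 : ℂ) R \ Metric.ball 0 r) :=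
    measureReal_mono hsub (measure_ne_top_of_subset diff_subset hfin)
  have h2 : volume.real (Metric.ball (0 : ℂ) R \ Metric.ball 0 r) =
      volume.real (Metric.ball (0 : ℂ) R) - volume.real (Metric.ball (0 : ℂ) r) :=
    measureReal_diff (Metric.ball_subset_ball hrR.le) Metric.isOpen_ball.measurableSet hfin
  rw [hvol R hR, hvol r hr0] at h2
  have h3 : R - ε / (8 * R) ≤ r := le_max_right _ _
  have h4 : Real.pi < 4 := Real.pi_lt_four
  have h5 : Real.pi * R ^ 2 - Real.pi * r ^ 2 = Real.pi * ((R - r) * (R + r)) := by ring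
  have h6 : (R - r) * (R + r) ≤ ε / (8 * R) * (2 * R) :=
    mul_le_mul (by linarith) (by linarith) (by linarith) h8.le
  have h7 : ε / (8 * R) * (2 * R) = ε / 4 := by
    field_simp
    norm_num
  rw [h7] at h6
  have h9 : Real.pi * ((R - r) * (R + r)) ≤ Real.pi * (ε / 4) :=
    mul_le_mul_of_nonneg_left h6 Real.pi_pos.le
  have h10 : Real.pi * (ε / 4) < 4 * (ε / 4) := mul_lt_mul_of_pos_right h4 (by positivity)
  linarith

end Pool.Agent.H289CC.Task4
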