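import Pool.Agent.H289CC.Stmts

open Set Filter Topology MeasureTheory

namespace Pool.Agent.H289CC

theorem ann_open (r R : ℝ) : IsOpen (ann r R) :=
  (isOpen_lt continuous_const continuous_norm).inter (isOpen_lt continuous_norm continuous_const)

theorem ann_conn (r R : ℝ) (h0 : 0 < r) (h : r < R) : IsConnected (ann r R) := by
  have hI : IsConnected (Ioo r R ×ˢ (univ : Set ℝ)) :=
    (isConnected_Ioo h).prod isConnected_univ
  have hc : Continuous fun p : ℝ × ℝ => (p.1 : ℂ) * Complex.exp (p.2 * Complex.I) := by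
    fun_prop
  have := hI.image _ hc.continuousOn
  convert this using 1
  ext x
  constructor
  · intro hx
    refine ⟨(‖x‖, x.arg), ⟨hx, mem_univ _⟩, ?_⟩
    exact Complex.norm_mul_exp_arg_mul_I x
  · rintro ⟨⟨t, θ⟩, ⟨ht, -⟩, rfl⟩
    have h1 : ‖(t : ℂ) * Complex.exp (θ * Complex.I)‖ = t := by
      rw [norm_mul, Complex.norm_exp_ofReal_mul_I, mul_one, Complex.norm_real,
        Real.norm_of_nonneg (h0.trans ht.1).le]
    show r < ‖(t : ℂ) * Complex.exp (θ * Complex.I)‖ ∧ ‖(t : ℂ) * Complex.exp (θ * Complex.I)‖ < R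
    rw [h1]
    exact ht

theorem task5 : Task5 := by
  intro r R h0 h
  refine ⟨ann_open r R, ann_conn r R h0 h, ?_, ?_⟩
  · refine (Metric.isBounded_ball (x := (0 : ℂ)) (r := R)).subset fun x hx => ?_
    rw [mem_ball_zero_iff]
    exact hx.2
  · apply Subset.antisymm
    · refine closure_minimal (fun x hx => ⟨hx.1.le, hx.2.le⟩) ?_
      exact (isClosed_le continuous_const continuous_norm).inter
        (isClosed_le continuous_norm continuous_const)
    · rintro x ⟨h1, h2⟩
      have hx : 0 < ‖x‖ := h0.trans_le h1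
      have hc : Continuous fun t : ℝ => (t : ℂ) * (x / (‖x‖ : ℂ)) := by fun_prop
      have hm : ‖x‖ ∈ closure (Ioo r R) := by
        rw [closure_Ioo h.ne]
        exact ⟨h1, h2⟩
      have h3 : MapsTo (fun t : ℝ => (t : ℂ) * (x / (‖x‖ : ℂ))) (Ioo r R) (ann r R) := by
        intro t ht
        have h4 : ‖(t : ℂ) * (x / (‖x‖ : ℂ))‖ = t := by
          rw [norm_mul, norm_div, Complex.norm_real, Complex.norm_real, norm_norm,
            div_self hx.ne', mul_one, Real.norm_of_nonneg (h0.trans ht.1).le]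
        show r < ‖(t : ℂ) * (x / (‖x‖ : ℂ))‖ ∧ ‖(t : ℂ) * (x / (‖x‖ : ℂ))‖ < R
        rw [h4]
        exact ht
      have h5 := map_mem_closure hc hm h3
      have h6 : ((‖x‖ : ℝ) : ℂ) * (x / (‖x‖ : ℂ)) = x :=
        mul_div_cancel₀ x (by exact_mod_cast hx.ne')
      simpa only [h6] using h5

theorem Task5.main : Task5 := task5

end Pool.Agent.H289CC
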