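import Pool.Agent.H289CC.Stmts

set_option autoImplicit false

namespace Pool.Agent.H289CC.Task6

theorem main : Pool.Agent.H289CC.Task6 := by
  intro R n z hR hz
  have h1 : ∏ i, ∏ j ∈ Finset.Ioi i, ‖z i - z j‖ = ‖(Matrix.vandermonde z).det‖ := by
    rw [Matrix.det_vandermonde, norm_prod]
    refine Finset.prod_congr rfl fun i _ => ?_
    rw [norm_prod]
    exact Finset.prod_congr rfl fun j _ => norm_sub_rev _ _
  rw [h1, Matrix.det_apply]
  calc ‖∑ σ : Equiv.Perm (Fin n), Equiv.Perm.sign σ • ∏ i, Matrix.vandermonde z (σ i) i‖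
      ≤ ∑ σ : Equiv.Perm (Fin n), ‖Equiv.Perm.sign σ • ∏ i, Matrix.vandermonde z (σ i) i‖ :=
        norm_sum_le _ _
    _ ≤ ∑ _σ : Equiv.Perm (Fin n), R ^ (n * (n - 1) / 2) := by
        refine Finset.sum_le_sum fun σ _ => ?_
        have hs : ‖Equiv.Perm.sign σ • ∏ i, Matrix.vandermonde z (σ i) i‖ =
            ‖∏ i, Matrix.vandermonde z (σ i) i‖ := by
          rcases Int.units_eq_one_or (Equiv.Perm.sign σ) with h | h <;> rw [h] <;> simp
        rw [hs, norm_prod]
        have hp : ∏ i : Fin n, R ^ (i : ℕ) = R ^ (n * (n - 1) / 2) := by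
          rw [Finset.prod_pow_eq_pow_sum, Fin.sum_univ_eq_sum_range (fun i => i) n,
            Finset.sum_range_id]
        rw [← hp]
        refine Finset.prod_le_prod (fun i _ => norm_nonneg _) fun i _ => ?_
        rw [Matrix.vandermonde_apply, norm_pow]
        exact pow_le_pow_left₀ (norm_nonneg _) (hz _) _
    _ = n.factorial * R ^ (n * (n - 1) / 2) := by
        rw [Finset.sum_const, Finset.card_univ, Fintype.card_perm, Fintype.card_fin, nsmul_eq_mul]

end Pool.Agent.H289CC.Task6
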