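import Pool.Agent.H289CC.Stmts

set_option autoImplicit false

namespace Pool.Agent.H289CC.Task7

open Pool.Agent.H289CC

private lemma geom_zero {n : ℕ} {x : ℂ} (hx : x ^ n = 1) (h1 : x ≠ 1) :
    ∑ k : Fin n, x ^ (k : ℕ) = 0 := by
  rw [Fin.sum_univ_eq_sum_range (fun k => x ^ k) n]
  have h := mul_geom_sum x n
  rw [hx, sub_self] at h
  rcases mul_eq_zero.1 h with h | h
  · exact absurd (sub_eq_zero.1 h) h1
  · exact h

theorem main : Pool.Agent.H289CC.Task7 := by
  intro n hn
  have hp := Complex.isPrimitiveRoot_exp n hn.ne'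
  obtain ⟨ζ, hp⟩ : ∃ ζ : ℂ, IsPrimitiveRoot ζ n := ⟨_, hp⟩
  have hz : ‖ζ‖ = 1 := Complex.norm_eq_one_of_pow_eq_one hp.pow_eq_one hn.ne'
  let w : Fin n → ℂ := fun i => ζ ^ (i : ℕ)
  have hw : ∀ i, ‖w i‖ = 1 := fun i => by simp [w, hz]
  refine ⟨w, hw, ?_⟩
  let w' : Fin n → ℂ := fun i => star (w i)
  have hmul : ∀ i, w i * w' i = 1 := by
    intro i
    show w i * star (w i) = 1
    rw [Complex.star_def, Complex.mul_conj, Complex.normSq_eq_norm_sq, hw i]; simp
  have hwn : ∀ i, w i ^ n = 1 := fun i => by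
    show (ζ ^ (i : ℕ)) ^ n = 1
    rw [← pow_mul, mul_comm, pow_mul, hp.pow_eq_one, one_pow]
  have key : Matrix.vandermonde w * (Matrix.vandermonde w').transpose =
      (n : ℂ) • (1 : Matrix (Fin n) (Fin n) ℂ) := by
    ext i j
    rw [Matrix.vandermonde_mul_vandermonde_transpose]
    by_cases hij : i = j
    · subst hij
      simp [hmul i]
    · rw [geom_zero (x := w i * w' j)]
      · simp [Matrix.one_apply_ne hij]
      · have : w' j ^ n = 1 := by
          show (star (w j)) ^ n = 1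
          rw [← star_pow, hwn j, star_one]
        rw [mul_pow, hwn i, this, one_mul]
      · intro h
        apply hij
        have h2 : w i = w j := by
          have h3 : w i * (w' j * w j) = w j := by rw [← mul_assoc, h, one_mul]
          rwa [mul_comm (w' j), hmul j, mul_one] at h3
        exact Fin.ext (hp.pow_inj i.2 j.2 h2)
  have hdet := congrArg Matrix.det key
  rw [Matrix.det_mul, Matrix.det_transpose, Matrix.det_smul, Matrix.det_one, Matrix.det_vandermonde,
    Matrix.det_vandermonde, Fintype.card_fin, mul_one] at hdet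
  have hn2 := congrArg norm hdet
  simp only [norm_mul, norm_prod, norm_pow, Complex.norm_natCast] at hn2
  have e1 : ∏ i, ∏ j ∈ Finset.Ioi i, ‖w j - w i‖ = ∏ i, ∏ j ∈ Finset.Ioi i, ‖w i - w j‖ :=
    Finset.prod_congr rfl fun i _ => Finset.prod_congr rfl fun j _ => norm_sub_rev _ _
  have e2 : ∏ i, ∏ j ∈ Finset.Ioi i, ‖w' j - w' i‖ = ∏ i, ∏ j ∈ Finset.Ioi i, ‖w i - w j‖ :=
    Finset.prod_congr rfl fun i _ => Finset.prod_congr rfl fun j _ => by
      show ‖star (w j) - star (w i)‖ = _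
      rw [← star_sub, norm_star, norm_sub_rev]
  rw [e1, e2] at hn2
  have hP : 0 ≤ ∏ i, ∏ j ∈ Finset.Ioi i, ‖w i - w j‖ :=
    Finset.prod_nonneg fun i _ => Finset.prod_nonneg fun j _ => norm_nonneg _
  have h1 : (1 : ℝ) ≤ (n : ℝ) ^ n := one_le_pow₀ (by exact_mod_cast hn)
  nlinarith

end Pool.Agent.H289CC.Task7
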