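import Pool.Agent.H289CC.Stmts

/-! Task 8: annuli of outer radius `R` have transfinite diameter `R`. -/

open Set Filter Topology MeasureTheory

namespace Pool.Agent.H289CC.Task8

open Pool.Agent.H289CC

lemma card_sum (n : ℕ) : ∑ i : Fin n, (Finset.Ioi i).card = n * (n - 1) / 2 := by
  simp only [Fin.card_Ioi]
  rw [Fin.sum_univ_eq_sum_range (fun i => n - 1 - i) n, Finset.sum_range_reflect (fun i => i) n,
    Finset.sum_range_id]

lemma scale (n : ℕ) (R : ℝ) (hR : 0 < R) (w : Fin n → ℂ) :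
    ∏ i, ∏ j ∈ Finset.Ioi i, ‖(R : ℂ) * w i - (R : ℂ) * w j‖ =
      R ^ (n * (n - 1) / 2) * ∏ i, ∏ j ∈ Finset.Ioi i, ‖w i - w j‖ := by
  have h : ∀ i j, ‖(R : ℂ) * w i - (R : ℂ) * w j‖ = R * ‖w i - w j‖ := by
    intro i j
    rw [← mul_sub, norm_mul, Complex.norm_real, Real.norm_of_nonneg hR.le]
  simp only [h, Finset.prod_mul_distrib, Finset.prod_const]
  rw [Finset.prod_pow_eq_pow_sum, card_sum]

lemma castN (n : ℕ) (hn : 2 ≤ n) :
    ((n * (n - 1) / 2 : ℕ) : ℝ) * ((2 : ℝ) / (n * (n - 1))) = 1 := by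
  have h2 : 2 * (n * (n - 1) / 2) = n * (n - 1) :=
    Nat.two_mul_div_two_of_even (Nat.even_mul_pred_self n)
  generalize n * (n - 1) / 2 = N at h2 ⊢
  have h3 : (2 : ℝ) * N = n * (n - 1) := by
    have := congrArg (Nat.cast : ℕ → ℝ) h2
    push_cast [Nat.cast_sub (show 1 ≤ n by omega)] at this
    exact this
  have hn' : (2 : ℝ) ≤ n := by exact_mod_cast hn
  have h4 : (n : ℝ) * (n - 1) ≠ 0 := by
    have : (0 : ℝ) < n * (n - 1) := mul_pos (by linarith) (by linarith)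
    exact this.ne'
  rw [← h3] at h4 ⊢
  have h5 : (N : ℝ) ≠ 0 := fun h => h4 (by rw [h, mul_zero])
  field_simp

lemma pow_rt (n : ℕ) (hn : 2 ≤ n) (R : ℝ) (hR : 0 < R) :
    (R ^ (n * (n - 1) / 2)) ^ ((2 : ℝ) / (n * (n - 1))) = R := by
  rw [← Real.rpow_natCast, ← Real.rpow_mul hR.le, castN n hn, Real.rpow_one]

lemma expo_nonneg (n : ℕ) (hn : 2 ≤ n) : (0 : ℝ) ≤ (2 : ℝ) / (n * (n - 1)) := by
  have hn' : (2 : ℝ) ≤ n := by exact_mod_cast hn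
  have : (0 : ℝ) < n * (n - 1) := mul_pos (by linarith) (by linarith)
  positivity

lemma fact_rt (n : ℕ) (hn : 2 ≤ n) :
    ((n.factorial : ℝ)) ^ ((2 : ℝ) / (n * (n - 1))) ≤ (n : ℝ) ^ ((2 : ℝ) / (1 * n + -1)) := by
  have hn' : (2 : ℝ) ≤ n := by exact_mod_cast hn
  have h1 : (n.factorial : ℝ) ≤ (n : ℝ) ^ n := by exact_mod_cast Nat.factorial_le_pow n
  have h0 : (0 : ℝ) ≤ n.factorial := Nat.cast_nonneg _
  have hn0 : (0 : ℝ) ≤ n := by linarith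
  calc ((n.factorial : ℝ)) ^ ((2 : ℝ) / (n * (n - 1)))
      ≤ ((n : ℝ) ^ n) ^ ((2 : ℝ) / (n * (n - 1))) :=
        Real.rpow_le_rpow h0 h1 (expo_nonneg n hn)
    _ = (n : ℝ) ^ ((2 : ℝ) / (1 * n + -1)) := by
        rw [← Real.rpow_natCast, ← Real.rpow_mul hn0]
        congr 1
        have h5 : (n : ℝ) ≠ 0 := by linarith
        have h6 : (n : ℝ) - 1 ≠ 0 := by
          have : (0 : ℝ) < (n : ℝ) - 1 := by linarith
          exact this.ne'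
        have h7 : 1 * (n : ℝ) + -1 = n - 1 := by ring
        rw [h7]
        field_simp

theorem main : Pool.Agent.H289CC.Task8 := by
  intro h5 h6 h7 r R hr hrR
  have hR : 0 < R := hr.trans hrR
  obtain ⟨-, -, -, hcl⟩ := h5 r R hr hrR
  rw [HasTD, hcl]
  have hub : ∀ n : ℕ, 2 ≤ n → ∀ t ∈ {t : ℝ | ∃ z : Fin n → ℂ,
      (∀ i, z i ∈ {x : ℂ | r ≤ ‖x‖ ∧ ‖x‖ ≤ R}) ∧
      t = (∏ i, ∏ j ∈ Finset.Ioi i, ‖z i - z j‖) ^ ((2 : ℝ) / (n * (n - 1)))},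
      t ≤ (n : ℝ) ^ ((2 : ℝ) / (1 * n + -1)) * R := by
    rintro n hn t ⟨z, hz, rfl⟩
    have h := h6 R n z hR (fun i => (hz i).2)
    have h0 : (0 : ℝ) ≤ ∏ i, ∏ j ∈ Finset.Ioi i, ‖z i - z j‖ :=
      Finset.prod_nonneg fun i _ => Finset.prod_nonneg fun j _ => norm_nonneg _
    calc (∏ i, ∏ j ∈ Finset.Ioi i, ‖z i - z j‖) ^ ((2 : ℝ) / (n * (n - 1)))
        ≤ (n.factorial * R ^ (n * (n - 1) / 2)) ^ ((2 : ℝ) / (n * (n - 1))) :=
          Real.rpow_le_rpow h0 h (expo_nonneg n hn)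
      _ = (n.factorial : ℝ) ^ ((2 : ℝ) / (n * (n - 1))) * R := by
          rw [Real.mul_rpow (Nat.cast_nonneg _) (pow_nonneg hR.le _), pow_rt n hn R hR]
      _ ≤ (n : ℝ) ^ ((2 : ℝ) / (1 * n + -1)) * R :=
          mul_le_mul_of_nonneg_right (fact_rt n hn) hR.le
  have hlb : ∀ n : ℕ, 2 ≤ n → ∃ t ∈ {t : ℝ | ∃ z : Fin n → ℂ,
      (∀ i, z i ∈ {x : ℂ | r ≤ ‖x‖ ∧ ‖x‖ ≤ R}) ∧
      t = (∏ i, ∏ j ∈ Finset.Ioi i, ‖z i - z j‖) ^ ((2 : ℝ) / (n * (n - 1)))}, R ≤ t := by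
    intro n hn
    obtain ⟨w, hw, hw1⟩ := h7 n (by omega)
    refine ⟨_, ⟨fun i => (R : ℂ) * w i, ?_, rfl⟩, ?_⟩
    · intro i
      have : ‖(R : ℂ) * w i‖ = R := by
        rw [norm_mul, Complex.norm_real, Real.norm_of_nonneg hR.le, hw i, mul_one]
      show r ≤ ‖(R : ℂ) * w i‖ ∧ ‖(R : ℂ) * w i‖ ≤ R
      rw [this]
      exact ⟨hrR.le, le_refl _⟩
    · have hs := scale n R hR w
      rw [hs]
      calc R = (R ^ (n * (n - 1) / 2)) ^ ((2 : ℝ) / (n * (n - 1))) := (pow_rt n hn R hR).symm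
        _ ≤ _ := Real.rpow_le_rpow (pow_nonneg hR.le _)
            (le_mul_of_one_le_right (pow_nonneg hR.le _) hw1) (expo_nonneg n hn)
  have hlim : Tendsto (fun n : ℕ => (n : ℝ) ^ ((2 : ℝ) / (1 * n + -1)) * R) atTop (𝓝 R) := by
    have h := (tendsto_rpow_div_mul_add 2 1 (-1) (by norm_num)).comp
      (tendsto_natCast_atTop_atTop (R := ℝ))
    have h' := h.mul_const R
    rw [one_mul] at h'
    exact h'
  refine tendsto_of_tendsto_of_tendsto_of_le_of_le' tendsto_const_nhds hlim ?_ ?_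
  · filter_upwards [eventually_ge_atTop 2] with n hn
    obtain ⟨t, ht, hRt⟩ := hlb n hn
    exact hRt.trans (le_csSup ⟨_, fun s hs => hub n hn s hs⟩ ht)
  · filter_upwards [eventually_ge_atTop 2] with n hn
    obtain ⟨t, ht, -⟩ := hlb n hn
    exact csSup_le ⟨t, ht⟩ (fun s hs => hub n hn s hs)

end Pool.Agent.H289CC.Task8
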