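import Pool.Agent.H289CC.Stmts
import Pool.Agent.Q40.LP.TaskRefl

set_option autoImplicit false

open Set Filter Topology MeasureTheory

namespace Pool.Agent.H289CC.Task9

open Pool.Agent.Q40.LP

theorem norm_lt {n : ℂ} (hn : ‖n‖ = 1) {c : ℝ} (hc : c < 0) {x : ℂ} (hx : 0 < lin n c x) :
    ‖x‖ < ‖refl n c x‖ := by
  have h := Pool.Agent.Q40.LP.TaskRefl.nn hn
  have h1 : ‖refl n c x‖ ^ 2 = ‖x‖ ^ 2 - 4 * c * lin n c x := by
    rw [Complex.sq_norm, Complex.sq_norm, Complex.normSq_apply, Complex.normSq_apply,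
      Pool.Agent.Q40.LP.TaskRefl.re_refl, Pool.Agent.Q40.LP.TaskRefl.im_refl]
    have hd : n.re * x.re + n.im * x.im = lin n c x + c := by unfold lin; ring
    set l := lin n c x
    have e3 : (x.re - 2 * l * n.re) * (x.re - 2 * l * n.re) +
        (x.im - 2 * l * n.im) * (x.im - 2 * l * n.im) =
        x.re * x.re + x.im * x.im - 4 * l * (n.re * x.re + n.im * x.im) +
          4 * l ^ 2 * (n.re ^ 2 + n.im ^ 2) := by ring
    rw [e3, h, hd]
    ring
  have h2 : ‖x‖ ^ 2 < ‖refl n c x‖ ^ 2 := by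
    rw [h1]
    nlinarith [mul_pos (neg_pos.2 hc) hx]
  exact lt_of_pow_lt_pow_left₀ 2 (norm_nonneg _) h2

theorem main : Pool.Agent.H289CC.Task9 := by
  intro n c hn hc R Ω hΩ hΩR
  obtain ⟨hinv, -, hlin, hfix, hmp, hcont, -⟩ := Pool.Agent.Q40.LP.TaskRefl.main n c hn
  set σ := refl n c with hσ
  have hlc : Continuous (lin n c) := by
    unfold lin
    fun_prop
  have hHo : IsOpen (half n c) := isOpen_lt continuous_const hlc
  have himg : σ '' Ω = σ ⁻¹' Ω := by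
    ext x
    constructor
    · rintro ⟨y, hy, rfl⟩
      show σ (σ y) ∈ Ω
      rwa [hinv]
    · intro h
      exact ⟨σ x, h, hinv x⟩
  have hSo : IsOpen (σ ⁻¹' Ω) := hΩ.preimage hcont
  have hpol : polar n c Ω = ((Ω ∪ σ ⁻¹' Ω) ∩ half n c) ∪ ((Ω ∩ σ ⁻¹' Ω) \ half n c) := by
    rw [← himg]
    rfl
  have hpol2 : polar n c Ω = ((Ω ∪ σ ⁻¹' Ω) ∩ half n c) ∪ (Ω ∩ σ ⁻¹' Ω) := by
    rw [hpol]
    ext x
    simp only [mem_union, mem_inter_iff, mem_diff]
    tauto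
  refine ⟨?_, ?_, ?_⟩
  · rw [hpol2]
    exact ((hΩ.union hSo).inter hHo).union (hΩ.inter hSo)
  · rw [hpol]
    rintro x (⟨h1 | h1, h2⟩ | ⟨⟨h1, -⟩, -⟩)
    · exact hΩR h1
    · have h3 := norm_lt hn hc (show 0 < lin n c x from h2)
      have h4 : σ x ∈ Metric.ball (0 : ℂ) R := hΩR h1
      rw [mem_ball_zero_iff] at h4 ⊢
      exact h3.trans h4
    · exact hΩR h1
  · have hΩm : MeasurableSet Ω := hΩ.measurableSet
    have hSm : MeasurableSet (σ ⁻¹' Ω) := hSo.measurableSet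
    have hHm : MeasurableSet (half n c) := hHo.measurableSet
    have e1 : polar n c Ω = (Ω ∩ half n c) ∪ (((σ ⁻¹' Ω \ Ω) ∩ half n c) ∪
        ((Ω ∩ σ ⁻¹' Ω) \ half n c)) := by
      rw [hpol]
      ext x
      simp only [mem_union, mem_inter_iff, mem_diff]
      tauto
    have e2 : Ω = (Ω ∩ half n c) ∪ (((Ω \ σ ⁻¹' Ω) \ half n c) ∪
        ((Ω ∩ σ ⁻¹' Ω) \ half n c)) := by
      ext x
      simp only [mem_union, mem_inter_iff, mem_diff]
      tauto
    have e3 : σ ⁻¹' ((σ ⁻¹' Ω \ Ω) ∩ half n c) = (Ω \ σ ⁻¹' Ω) \ half n c := by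
      ext x
      show ((σ (σ x) ∈ Ω ∧ ¬ σ x ∈ Ω) ∧ 0 < lin n c (σ x)) ↔ ((x ∈ Ω ∧ ¬ σ x ∈ Ω) ∧ ¬ 0 < lin n c x)
      rw [hinv, hlin]
      constructor
      · rintro ⟨h1, h2⟩
        exact ⟨h1, by linarith⟩
      · rintro ⟨⟨h1, h2⟩, h3⟩
        refine ⟨⟨h1, h2⟩, ?_⟩
        rcases lt_trichotomy (lin n c x) 0 with h | h | h
        · linarith
        · exfalso
          apply h2
          rw [hfix x h]
          exact h1
        · exact absurd h h3
    have e4 : volume ((σ ⁻¹' Ω \ Ω) ∩ half n c) = volume ((Ω \ σ ⁻¹' Ω) \ half n c) := by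
      rw [← e3]
      exact (hmp.measure_preimage ((hSm.diff hΩm).inter hHm).nullMeasurableSet).symm
    have m1 : MeasurableSet ((Ω ∩ σ ⁻¹' Ω) \ half n c) := (hΩm.inter hSm).diff hHm
    have v1 : volume (polar n c Ω) = volume (Ω ∩ half n c) +
        (volume ((σ ⁻¹' Ω \ Ω) ∩ half n c) + volume ((Ω ∩ σ ⁻¹' Ω) \ half n c)) := by
      rw [e1, measure_union _ (((hSm.diff hΩm).inter hHm).union m1), measure_union _ m1]
      · rw [Set.disjoint_left]
        rintro x ⟨-, h⟩ ⟨-, h'⟩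
        exact h' h
      · rw [Set.disjoint_left]
        rintro x ⟨h1, h2⟩ (⟨⟨-, h3⟩, -⟩ | ⟨-, h3⟩)
        · exact h3 h1
        · exact h3 h2
    have v2 : volume Ω = volume (Ω ∩ half n c) +
        (volume ((Ω \ σ ⁻¹' Ω) \ half n c) + volume ((Ω ∩ σ ⁻¹' Ω) \ half n c)) := by
      conv_lhs => rw [e2]
      rw [measure_union _ (((hΩm.diff hSm).diff hHm).union m1), measure_union _ m1]
      · rw [Set.disjoint_left]
        rintro x ⟨⟨-, h⟩, -⟩ ⟨⟨-, h'⟩, -⟩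
        exact h h'
      · rw [Set.disjoint_left]
        rintro x ⟨h1, h2⟩ (⟨-, h3⟩ | ⟨-, h3⟩)
        · exact h3 h2
        · exact h3 h2
    rw [v1, v2, e4]

end Pool.Agent.H289CC.Task9
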