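import Pool.Agent.H289CC.Stmts
import Pool.Agent.H289CC.Task10
import Pool.Agent.Q40.LP.TaskRefl

/-! # Task9 of the blueprint H289CC (helper161, backup) -/

set_option autoImplicit false

open Set Filter Topology MeasureTheory

namespace Pool.Agent.H289CC.Task9b

open Pool.Agent.Q40.LP

theorem main : Pool.Agent.H289CC.Task9 := by
  intro n c hn hc R Ω hΩ hΩR
  obtain ⟨hinv, -, hlin, hfix, hmp, hcont, -⟩ := Pool.Agent.Q40.LP.TaskRefl.main n c hn
  set σ := refl n c with hσ
  have hlc : Continuous (lin n c) := by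
    unfold lin
    fun_prop
  have hHo : IsOpen (half n c) := isOpen_lt continuous_const hlc
  have hHm : MeasurableSet (half n c) := hHo.measurableSet
  have hΩm : MeasurableSet Ω := hΩ.measurableSet
  have hσm : Measurable σ := hcont.measurable
  have himg' : σ '' Ω = σ ⁻¹' Ω := by
    ext x
    constructor
    · rintro ⟨y, hy, rfl⟩
      show σ (σ y) ∈ Ω
      rwa [hinv]
    · intro h
      exact ⟨σ x, h, hinv x⟩
  have hpol : polar n c Ω = ((Ω ∪ σ ⁻¹' Ω) ∩ half n c) ∪ ((Ω ∩ σ ⁻¹' Ω) \ half n c) := by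
    unfold polar
    rw [← hσ, himg']
  have hσo : IsOpen (σ ⁻¹' Ω) := hΩ.preimage hcont
  have hpol2 : polar n c Ω = ((Ω ∪ σ ⁻¹' Ω) ∩ half n c) ∪ (Ω ∩ σ ⁻¹' Ω) := by
    rw [hpol]
    ext x
    simp only [mem_union, mem_inter_iff, mem_diff]
    tauto
  refine ⟨?_, ?_, ?_⟩
  · rw [hpol2]
    exact ((hΩ.union hσo).inter hHo).union (hΩ.inter hσo)
  · rw [hpol2]
    rintro x (⟨hx | hx, hxH⟩ | hx)
    · exact hΩR hx
    · have h1 : ‖x‖ < ‖σ x‖ := Pool.Agent.H289CC.Task10.norm_lt hn hc hxH
      have h2 : ‖σ x‖ < R := by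
        have := hΩR hx
        rwa [mem_ball_zero_iff] at this
      rw [mem_ball_zero_iff]
      exact h1.trans h2
    · exact hΩR hx.1
  · let P : Set ℂ := (σ ⁻¹' Ω \ Ω) ∩ half n c
    let Q : Set ℂ := (Ω \ σ ⁻¹' Ω) \ half n c
    have hPm : MeasurableSet P := ((hσm hΩm).diff hΩm).inter hHm
    have hQm : MeasurableSet Q := (hΩm.diff (hσm hΩm)).diff hHm
    have hPQ : σ ⁻¹' P = Q := by
      ext x
      constructor
      · rintro ⟨⟨h1, h2⟩, h3⟩
        have h1' : σ (σ x) ∈ Ω := h1
        rw [hinv] at h1'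
        have h3' : 0 < lin n c (σ x) := h3
        rw [hlin] at h3'
        refine ⟨⟨h1', h2⟩, fun h4 => ?_⟩
        have h4' : 0 < lin n c x := h4
        linarith
      · rintro ⟨⟨h1, h2⟩, h3⟩
        have h3' : ¬ 0 < lin n c x := h3
        have h4 : lin n c x ≠ 0 := by
          intro h0
          apply h2
          show σ x ∈ Ω
          rw [hfix x h0]
          exact h1
        have h5 : lin n c x < 0 := lt_of_le_of_ne (not_lt.1 h3') h4
        refine ⟨⟨?_, h2⟩, ?_⟩
        · show σ (σ x) ∈ Ω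
          rw [hinv]
          exact h1
        · show 0 < lin n c (σ x)
          rw [hlin]
          linarith
    have hvol : volume Q = volume P := by
      rw [← hPQ]
      exact hmp.measure_preimage hPm.nullMeasurableSet
    have e1 : polar n c Ω ∩ half n c = (Ω ∩ half n c) ∪ P := by
      rw [hpol]
      ext x
      simp only [mem_union, mem_inter_iff, mem_diff, P]
      tauto
    have e2 : polar n c Ω \ half n c = (Ω ∩ σ ⁻¹' Ω) \ half n c := by
      rw [hpol]
      ext x
      simp only [mem_union, mem_inter_iff, mem_diff]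
      tauto
    have e3 : Ω \ half n c = ((Ω ∩ σ ⁻¹' Ω) \ half n c) ∪ Q := by
      ext x
      simp only [mem_union, mem_inter_iff, mem_diff, Q]
      tauto
    have d1 : Disjoint (Ω ∩ half n c) P := by
      rw [Set.disjoint_left]
      rintro x ⟨h1, -⟩ ⟨⟨-, h2⟩, -⟩
      exact h2 h1
    have d2 : Disjoint ((Ω ∩ σ ⁻¹' Ω) \ half n c) Q := by
      rw [Set.disjoint_left]
      rintro x ⟨⟨-, h1⟩, -⟩ ⟨⟨-, h2⟩, -⟩
      exact h2 h1
    rw [← measure_inter_add_diff (polar n c Ω) hHm, e1, e2, measure_union d1 hPm,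
      ← measure_inter_add_diff Ω hHm, e3, measure_union d2 hQm, hvol, add_assoc,
      add_comm (volume P)]

end Pool.Agent.H289CC.Task9b
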