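import Pool.Agent.H289CC.Stmts
import Pool.Agent.Q40.LP.TaskRefl

open Set Filter Topology MeasureTheory

namespace Pool.Agent.H289CC.Task9me

open Pool.Agent.Q40.LP

theorem main : Pool.Agent.H289CC.Task9 := by
  intro n c hn hc R Ω hΩ hR
  obtain ⟨hinv, hiso, hlin, hfix, hmp, hcont, -⟩ :=
    (Pool.Agent.Q40.LP.TaskRefl.main : TaskRefl) n c hn
  have himg : refl n c '' Ω = refl n c ⁻¹' Ω := by
    ext x
    constructor
    · rintro ⟨y, hy, rfl⟩
      rw [mem_preimage, hinv]
      exact hy
    · intro hx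
      exact ⟨refl n c x, hx, hinv x⟩
  have hσO : IsOpen (refl n c '' Ω) := by
    rw [himg]
    exact hΩ.preimage hcont
  have hlc : Continuous (lin n c) := by
    unfold lin
    fun_prop
  have hH : IsOpen (half n c) := isOpen_lt continuous_const hlc
  have hpol : polar n c Ω = ((Ω ∪ refl n c '' Ω) ∩ half n c) ∪ (Ω ∩ refl n c '' Ω) := by
    unfold polar
    ext x
    simp only [mem_union, mem_inter_iff, mem_diff]
    tauto
  refine ⟨?_, ?_, ?_⟩
  · rw [hpol]
    exact ((hΩ.union hσO).inter hH).union (hΩ.inter hσO)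
  · intro x hx
    rw [hpol] at hx
    rcases hx with ⟨h1 | h1, h2⟩ | ⟨h1, -⟩
    · exact hR h1
    · rw [himg] at h1
      have h3 := hR h1
      rw [mem_ball_zero_iff] at h3 ⊢
      refine lt_of_le_of_lt ?_ h3
      have hpos : 0 < lin n c x := h2
      have hn2 : n.re ^ 2 + n.im ^ 2 = 1 := by
        have := Complex.sq_norm n
        rw [hn, Complex.normSq_apply] at this
        nlinarith
      have e1 : ‖x‖ ^ 2 = x.re ^ 2 + x.im ^ 2 := by
        rw [Complex.sq_norm, Complex.normSq_apply]; ring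
      have e2 : ‖refl n c x‖ ^ 2 = (x.re - 2 * lin n c x * n.re) ^ 2 +
          (x.im - 2 * lin n c x * n.im) ^ 2 := by
        rw [Complex.sq_norm, Complex.normSq_apply]
        unfold Pool.Agent.Q40.LP.refl
        simp only [Complex.sub_re, Complex.sub_im, Complex.mul_re, Complex.mul_im,
          Complex.ofReal_re, Complex.ofReal_im]
        ring
      have e3 : lin n c x = n.re * x.re + n.im * x.im - c := rfl
      have h4 : ‖x‖ ^ 2 ≤ ‖refl n c x‖ ^ 2 := by
        rw [e1, e2]
        have h5 : (x.re - 2 * lin n c x * n.re) ^ 2 + (x.im - 2 * lin n c x * n.im) ^ 2 =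
            x.re ^ 2 + x.im ^ 2 - 4 * lin n c x * (n.re * x.re + n.im * x.im) +
            4 * (lin n c x) ^ 2 * (n.re ^ 2 + n.im ^ 2) := by ring
        rw [h5, hn2]
        have h6 : n.re * x.re + n.im * x.im = lin n c x + c := by rw [e3]; ring
        rw [h6]
        nlinarith
      exact (sq_le_sq₀ (norm_nonneg _) (norm_nonneg _)).1 h4
    · exact hR h1
  · set S := refl n c '' Ω with hS
    have hSm : MeasurableSet S := hσO.measurableSet
    have hΩm := hΩ.measurableSet
    have hHm : MeasurableSet (half n c) := hH.measurableSet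
    have hmemS : ∀ x, x ∈ S ↔ refl n c x ∈ Ω := fun x => by rw [himg]; rfl
    have hkey : volume ((S \ Ω) ∩ half n c) = volume ((Ω \ S) \ half n c) := by
      have h1 := hmp.measure_preimage ((hSm.diff hΩm).inter hHm).nullMeasurableSet
      rw [← h1]
      congr 1
      ext x
      simp only [mem_preimage, mem_inter_iff, mem_diff, hmemS, hinv]
      have h2 : refl n c x ∈ half n c ↔ lin n c x < 0 := by
        change 0 < lin n c (refl n c x) ↔ _
        rw [hlin]
        exact neg_pos
      have h3 : x ∈ half n c ↔ 0 < lin n c x := Iff.rfl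
      rw [h2, h3]
      constructor
      · rintro ⟨⟨h4, h5⟩, h6⟩
        exact ⟨⟨h4, h5⟩, not_lt.2 h6.le⟩
      · rintro ⟨⟨h4, h5⟩, h6⟩
        refine ⟨⟨h4, h5⟩, lt_of_le_of_ne (not_lt.1 h6) fun h7 => ?_⟩
        rw [hfix x h7] at h5
        exact h5 h4
    have d1 : polar n c Ω = (((Ω ∩ half n c) ∪ ((S \ Ω) ∩ half n c)) ∪ ((Ω ∩ S) \ half n c)) := by
      unfold polar
      ext x
      simp only [mem_union, mem_inter_iff, mem_diff, ← hS]
      tauto
    have d2 : Ω = (((Ω ∩ half n c) ∪ ((Ω \ S) \ half n c)) ∪ ((Ω ∩ S) \ half n c)) := by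
      ext x
      simp only [mem_union, mem_inter_iff, mem_diff]
      tauto
    have m1 : MeasurableSet ((Ω ∩ S) \ half n c) := (hΩm.inter hSm).diff hHm
    have v1 : volume (polar n c Ω) = volume (Ω ∩ half n c) + volume ((S \ Ω) ∩ half n c) +
        volume ((Ω ∩ S) \ half n c) := by
      rw [d1, measure_union _ m1, measure_union _ ((hSm.diff hΩm).inter hHm)]
      · rw [disjoint_left]
        rintro x ⟨h1, -⟩ ⟨⟨-, h2⟩, -⟩
        exact h2 h1
      · rw [disjoint_left]
        rintro x (⟨-, h1⟩ | ⟨-, h1⟩) ⟨-, h2⟩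
        · exact h2 h1
        · exact h2 h1
    have v2 : volume Ω = volume (Ω ∩ half n c) + volume ((Ω \ S) \ half n c) +
        volume ((Ω ∩ S) \ half n c) := by
      nth_rewrite 1 [d2]
      rw [measure_union _ m1, measure_union _ ((hΩm.diff hSm).diff hHm)]
      · rw [disjoint_left]
        rintro x ⟨-, h1⟩ ⟨-, h2⟩
        exact h2 h1
      · rw [disjoint_left]
        rintro x (⟨-, h1⟩ | ⟨⟨-, h1⟩, -⟩) ⟨⟨-, h3⟩, h2⟩
        · exact h2 h1
        · exact h1 h3
    rw [v1, v2, hkey]

end Pool.Agent.H289CC.Task9me
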